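import Pool.Agent.LibAF.P2

/-!
# Euler products: coefficients, descent to a subring (MP_93fb11_ag)
-/

set_option linter.style.haveILetI false
set_option linter.unusedSectionVars false

open Polynomial WeierstrassCurve IsLocalRing
open scoped PowerSeries.WithPiTopology

namespace FFBSD

section prod

variable {O O' : Type} [CommRing O] [CommRing O'] {V : Type}

/-- convergence of a product over a discrete ring: every coefficient is eventually constant -/
theorem isProd_iff (f : V → PowerSeries O) (L : PowerSeries O) :
    IsProd f L ↔ ∀ n, ∃ s₀ : Finset V, ∀ s : Finset V, s₀ ⊆ s →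
      PowerSeries.coeff n (∏ v ∈ s, f v) = PowerSeries.coeff n L := by
  letI : TopologicalSpace O := ⊥
  haveI : DiscreteTopology O := ⟨rfl⟩
  have h0 : IsProd f L ↔ Filter.Tendsto (fun s : Finset V => ∏ v ∈ s, f v) Filter.atTop
      (nhds L) := by
    unfold IsProd
    rw [HasProd, SummationFilter.unconditional_filter]
  rw [h0, PowerSeries.WithPiTopology.tendsto_iff_coeff_tendsto]
  refine forall_congr' fun n => ?_
  rw [nhds_discrete, Filter.tendsto_pure, Filter.eventually_atTop]

/-- a product over `O'` whose factors come from a subring `O` comes from `O` -/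
theorem IsProd.descend (φ : O →+* O') (hφ : Function.Injective φ) (f : V → PowerSeries O)
    (L' : PowerSeries O') (h : IsProd (fun v => PowerSeries.map φ (f v)) L') :
    ∃ L : PowerSeries O, PowerSeries.map φ L = L' ∧ IsProd f L := by
  rw [isProd_iff] at h
  choose s₀ hs₀ using h
  have h1 : ∀ (s : Finset V) n, PowerSeries.coeff n (∏ v ∈ s, PowerSeries.map φ (f v)) =
      φ (PowerSeries.coeff n (∏ v ∈ s, f v)) := by
    intro s n
    rw [← map_prod, PowerSeries.coeff_map]
  refine ⟨PowerSeries.mk fun n => PowerSeries.coeff n (∏ v ∈ s₀ n, f v), ?_, ?_⟩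
  · ext n
    rw [PowerSeries.coeff_map, PowerSeries.coeff_mk, ← h1, hs₀ n _ (Finset.Subset.refl _)]
  · rw [isProd_iff]
    intro n
    refine ⟨s₀ n, fun s hs => ?_⟩
    rw [PowerSeries.coeff_mk]
    apply hφ
    rw [← h1, ← h1, hs₀ n s hs, hs₀ n _ (Finset.Subset.refl _)]

/-- two products whose factors differ at finitely many places -/
theorem IsProd.mul_finite {f g : V → PowerSeries O} {L : PowerSeries O} (h : IsProd f L)
    (S : Finset V) (p : V → PowerSeries O) (h1 : ∀ v ∈ S, g v = f v * p v)
    (h2 : ∀ v ∉ S, g v = f v) : IsProd g (L * ∏ v ∈ S, p v) := by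
  classical
  letI : TopologicalSpace O := ⊥
  haveI : DiscreteTopology O := ⟨rfl⟩
  have h3 : HasProd f L := h
  have h4 : HasProd (fun v => if v ∈ S then p v else 1) (∏ v ∈ S, p v) := by
    have := hasProd_prod_of_ne_finset_one (f := fun v => if v ∈ S then p v else 1) (s := S)
      (L := SummationFilter.unconditional V) (fun v hv => if_neg hv)
    rwa [Finset.prod_congr rfl fun v hv => if_pos hv] at this
  have h5 := h3.mul h4
  have h6 : (fun v => f v * if v ∈ S then p v else 1) = g := by
    funext v
    by_cases hv : v ∈ S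
    · rw [if_pos hv, h1 v hv]
    · rw [if_neg hv, h2 v hv, mul_one]
  rw [h6] at h5
  exact h5

end prod

end FFBSD
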