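import Pool.Agent.LibAF.Defs

/-!
# Simple zeros of twisted L-functions (MP_93fb11_ag): definitions
-/

open Polynomial WeierstrassCurve

namespace FFBSD

variable {F K : Type} [Field F] [Field K] [Algebra F K]

/-- `c` is a function on the places of `K` whose values are `0`, at finitely many places, or roots
of unity of `l`-power order: for example `c v = χ (Frob_v)` for a character `χ` of `l`-power order
of the absolute Galois group of `K`, and `c v = 0` where `χ` is ramified. -/
structure PowChar (l : ℕ) (c : Place F K → ℂ) : Prop where
  fin : {v : Place F K | c v = 0}.Finite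
  val : ∀ v : Place F K, c v ≠ 0 → ∃ a : ℕ, c v ^ l ^ a = 1

/-- the Euler factor `P_v(T ^ deg v)` of `E` at `v` -/
noncomputable def locPol (E : WeierstrassCurve K) (v : Place F K) : ℤ[X] :=
  Polynomial.expand ℤ v.deg (E.localPolynomial v.O)

/-- the product of the Euler factors of `E` at the places where `c` vanishes -/
noncomputable def ramPol (E : WeierstrassCurve K) (c : Place F K → ℂ) : ℤ[X] :=
  ∏ᶠ (v : Place F K) (_ : c v = 0), locPol E v

/-- the reduction of a polynomial modulo `l` -/
noncomputable def redl (l : ℕ) (Q : ℤ[X]) : (ZMod l)[X] := Q.map (Int.castRingHom (ZMod l))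

/-- no irreducible polynomial divides `Q` more than `M` times modulo `l` -/
def MultLe (l M : ℕ) (Q : ℤ[X]) : Prop :=
  ∀ f : (ZMod l)[X], Irreducible f → ¬ f ^ (M + 1) ∣ redl l Q

end FFBSD
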