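import Pool.Agent.LibST64.A1
import Pool.Agent.LibST64.Defs

/-!
# The congruence between `L(E, c)` and `L(E)` (MP_93fb11_ag)
-/

set_option linter.style.haveILetI false
set_option linter.unusedSectionVars false

open Polynomial WeierstrassCurve IsLocalRing
open scoped PowerSeries.WithPiTopology

namespace FFBSD

variable {F K : Type} [Field F] [Field K] [Algebra F K]

/-- the ring of algebraic integers -/
abbrev AlgInt : Type := integralClosure ℤ ℂ

theorem PowChar.isIntegral {l : ℕ} (hl : l ≠ 0) {c : Place F K → ℂ} (hc : PowChar l c)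
    (v : Place F K) : IsIntegral ℤ (c v) := by
  by_cases h : c v = 0
  · rw [h]
    exact isIntegral_zero
  · obtain ⟨a, ha⟩ := hc.val v h
    exact IsIntegral.of_pow (Nat.pos_of_ne_zero (pow_ne_zero a hl)) (ha ▸ isIntegral_one)

/-- the values of a character as algebraic integers -/
noncomputable def PowChar.lift {l : ℕ} (hl : l ≠ 0) {c : Place F K → ℂ} (hc : PowChar l c)
    (v : Place F K) : AlgInt := ⟨c v, hc.isIntegral hl v⟩

theorem PowChar.red_lift {l : ℕ} (hl : l.Prime) {c : Place F K → ℂ} (hc : PowChar l c)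
    {k : Type} [Field k] [CharP k l] (φ : AlgInt →+* k) (v : Place F K) :
    (c v = 0 → φ (hc.lift hl.ne_zero v) = 0) ∧ (c v ≠ 0 → φ (hc.lift hl.ne_zero v) = 1) := by
  haveI := Fact.mk hl
  constructor
  · intro h
    have : hc.lift hl.ne_zero v = 0 := Subtype.ext h
    rw [this, map_zero]
  · intro h
    obtain ⟨a, ha⟩ := hc.val v h
    have h1 : (hc.lift hl.ne_zero v) ^ l ^ a = 1 := by
      apply Subtype.ext
      rw [SubmonoidClass.coe_pow]
      exact ha
    have h2 : (φ (hc.lift hl.ne_zero v)) ^ l ^ a = 1 := by rw [← map_pow, h1, map_one]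
    have h3 : (φ (hc.lift hl.ne_zero v) - 1) ^ l ^ a = 0 := by
      rw [sub_pow_char_pow, h2, one_pow, sub_self]
    exact sub_eq_zero.mp (pow_eq_zero_iff (pow_ne_zero a hl.ne_zero) |>.mp h3)

/-- **The congruence.** -/
theorem twL_congr {l : ℕ} (hl : l.Prime) (E : WeierstrassCurve K) {c : Place F K → ℂ}
    (hc : PowChar l c) (L : PowerSeries ℂ) (hL : IsTwL E c L) (L₀ : PowerSeries ℤ)
    (hL₀ : IsLFunction F E L₀) :
    ∃ LA : PowerSeries AlgInt, PowerSeries.map (algebraMap AlgInt ℂ) LA = L ∧
      ∀ (k : Type) [Field k] [CharP k l] (φ : AlgInt →+* k),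
        PowerSeries.map φ LA = PowerSeries.map (Int.castRingHom k) L₀ *
          (((ramPol E c).map (Int.castRingHom k) : k[X]) : PowerSeries k) := by
  classical
  have h1 : (fun v : Place F K => PowerSeries.invOfUnit (twPol E v (c v) : PowerSeries ℂ) 1) =
      fun v => PowerSeries.map (algebraMap AlgInt ℂ) (PowerSeries.invOfUnit
        (twPol E v (hc.lift hl.ne_zero v) : PowerSeries AlgInt) 1) := by
    funext v
    rw [map_inv_twPol]
    rfl
  unfold IsTwL at hL
  rw [h1] at hL
  obtain ⟨LA, hLA, hprod⟩ := IsProd.descend (algebraMap AlgInt ℂ)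
    (FaithfulSMul.algebraMap_injective AlgInt ℂ) _ L hL
  refine ⟨LA, hLA, fun k _ _ φ => ?_⟩
  have h2 := hprod.map φ
  have h3 := isTwL_one (O := k) E L₀ hL₀
  have h4 := IsProd.mul_finite h3 hc.fin.toFinset
    (g := fun v => PowerSeries.map φ (PowerSeries.invOfUnit
        (twPol E v (hc.lift hl.ne_zero v) : PowerSeries AlgInt) 1))
    (fun v => (twPol E v (1 : k) : PowerSeries k)) ?_ ?_
  · have h5 : ∏ v ∈ hc.fin.toFinset, (twPol E v (1 : k) : PowerSeries k) =
        (((ramPol E c).map (Int.castRingHom k) : k[X]) : PowerSeries k) := by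
      have h6 : ramPol E c = ∏ v ∈ hc.fin.toFinset, locPol E v :=
        finprod_mem_eq_finite_toFinset_prod _ hc.fin
      rw [h6, Polynomial.map_prod]
      refine Eq.trans ?_ (map_prod (Polynomial.coeToPowerSeries.ringHom (R := k)) _ _).symm
      refine Finset.prod_congr rfl fun v _ => ?_
      rw [twPol_one]
      rfl
    rw [← h5]
    exact h2.unique h4
  · intro v hv
    have hv' : c v = 0 := by simpa using hv
    rw [map_inv_twPol, (hc.red_lift hl φ v).1 hv', twPol_zero]
    have h7 := twPol_mul_inv E v (1 : k)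
    rw [mul_comm, h7]
    have h8 := ps_inv_pol_mul (O := k) 1 (by simp)
    rw [Polynomial.coe_one, one_mul] at h8
    rw [Polynomial.coe_one, h8]
  · intro v hv
    have hv' : c v ≠ 0 := by simpa using hv
    rw [map_inv_twPol, (hc.red_lift hl φ v).2 hv']

end FFBSD
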