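import Mathlib

/-!
# Multiplicities of roots under reduction (MP_93fb11_ag): pure algebra
-/

set_option linter.style.haveILetI false
set_option linter.unusedSectionVars false

open Polynomial

namespace ST64

/-- over a perfect field, the multiplicity of a root in an extension is the multiplicity of an
irreducible factor -/
theorem exists_irr_pow {F₀ k : Type} [Field F₀] [PerfectField F₀] [Field k] [Algebra F₀ k]
    (q : F₀[X]) (hq : q ≠ 0) (y : k) {m : ℕ}
    (hm : m ≤ (q.map (algebraMap F₀ k)).rootMultiplicity y) :
    ∃ f : F₀[X], Irreducible f ∧ f ^ m ∣ q := by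
  rcases Nat.eq_zero_or_pos m with rfl | hpos
  · exact ⟨X, irreducible_X, by simp⟩
  have hroot : (q.map (algebraMap F₀ k)).IsRoot y := by
    by_contra h
    rw [rootMultiplicity_eq_zero h] at hm
    omega
  have hy0 : aeval y q = 0 := by
    rw [aeval_def, ← eval_map]
    exact hroot
  have hint : IsIntegral F₀ y := by
    have : IsAlgebraic F₀ y := ⟨q, hq, hy0⟩
    exact this.isIntegral
  set f := minpoly F₀ y with hf
  have hirr : Irreducible f := minpoly.irreducible hint
  have hfin : FiniteMultiplicity f q :=
    finiteMultiplicity_of_degree_pos_of_monic (degree_pos_of_irreducible hirr)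
      (minpoly.monic hint) hq
  obtain ⟨g, hqe, hg⟩ := hfin.exists_eq_pow_mul_and_not_dvd
  set e := multiplicity f q with he
  have hg0 : g ≠ 0 := by
    rintro rfl
    exact hg (dvd_zero f)
  have hgy : ¬ (g.map (algebraMap F₀ k)).IsRoot y := by
    intro h
    apply hg
    apply minpoly.dvd
    rw [aeval_def, ← eval_map]
    exact h
  have hf0 : f.map (algebraMap F₀ k) ≠ 0 := (Polynomial.map_ne_zero_iff
    (algebraMap F₀ k).injective).mpr hirr.ne_zero
  have hgm0 : g.map (algebraMap F₀ k) ≠ 0 := (Polynomial.map_ne_zero_iff
    (algebraMap F₀ k).injective).mpr hg0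
  have hsep : (f.map (algebraMap F₀ k)).Separable :=
    (PerfectField.separable_of_irreducible hirr).map
  have h1 : (q.map (algebraMap F₀ k)).rootMultiplicity y ≤ e := by
    have hpow : ((f.map (algebraMap F₀ k)) ^ e).rootMultiplicity y =
        e * (f.map (algebraMap F₀ k)).rootMultiplicity y := by
      classical
      rw [← count_roots, roots_pow, Multiset.count_nsmul, count_roots]
    rw [hqe, Polynomial.map_mul, Polynomial.map_pow, rootMultiplicity_mul
      (mul_ne_zero (pow_ne_zero _ hf0) hgm0), rootMultiplicity_eq_zero hgy, add_zero,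
      hpow]
    calc e * (f.map (algebraMap F₀ k)).rootMultiplicity y ≤ e * 1 :=
          Nat.mul_le_mul_left e (rootMultiplicity_le_one_of_separable hsep y)
      _ = e := mul_one e
  exact ⟨f, hirr, (pow_dvd_pow f (hm.trans h1)).trans (hqe ▸ Dvd.intro g rfl)⟩

/-- `∏ (1 - g T)` -/
noncomputable def rev {R : Type} [CommRing R] (G : Multiset R) : R[X] :=
  (G.map fun g => 1 - C g * X).prod

theorem rev_cons {R : Type} [CommRing R] (g : R) (G : Multiset R) :
    rev (g ::ₘ G) = (1 - C g * X) * rev G := by
  rw [rev, Multiset.map_cons, Multiset.prod_cons, rev]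

theorem rev_zero {R : Type} [CommRing R] : rev (0 : Multiset R) = 1 := by simp [rev]

theorem rev_coeff_zero {R : Type} [CommRing R] (G : Multiset R) : (rev G).coeff 0 = 1 := by
  induction G using Multiset.induction_on with
  | empty => simp [rev_zero]
  | cons g G ih => rw [rev_cons, mul_coeff_zero, ih]; simp

theorem rev_map {R S : Type} [CommRing R] [CommRing S] (φ : R →+* S) (G : Multiset R) :
    (rev G).map φ = rev (G.map φ) := by
  induction G using Multiset.induction_on with
  | empty => simp [rev_zero]
  | cons g G ih =>
    rw [rev_cons, Polynomial.map_mul, ih, Multiset.map_cons, rev_cons]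
    simp

section field

variable {k : Type} [Field k] [DecidableEq k]

theorem rev_ne_zero (G : Multiset k) : rev G ≠ 0 := by
  intro h
  have := rev_coeff_zero G
  rw [h] at this
  simp at this

theorem natDegree_rev (G : Multiset k) : (rev G).natDegree = (G.filter (· ≠ 0)).card := by
  induction G using Multiset.induction_on with
  | empty => simp [rev_zero]
  | cons g G ih =>
    have h0 : (1 - C g * X : k[X]) ≠ 0 := by
      have := rev_ne_zero ({g} : Multiset k)
      simpa [rev] using this
    rw [rev_cons, natDegree_mul h0 (rev_ne_zero G), ih]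
    by_cases hg : g = 0
    · subst hg
      rw [Multiset.filter_cons_of_neg (p := fun x : k => x ≠ 0) _ (fun h => h rfl)]
      simp
    · rw [Multiset.filter_cons_of_pos (p := fun x : k => x ≠ 0) _ hg, Multiset.card_cons,
        add_comm]
      congr 1
      have : (1 - C g * X : k[X]) = C (-g) * X + C 1 := by simp; ring
      rw [this]
      exact natDegree_linear (neg_ne_zero.mpr hg)

theorem rootMultiplicity_rev (G : Multiset k) (y : k) (hy : y ≠ 0) :
    (rev G).rootMultiplicity y = G.count y⁻¹ := by
  induction G using Multiset.induction_on with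
  | empty => simp [rev_zero]
  | cons g G ih =>
    have h0 : (1 - C g * X : k[X]) ≠ 0 := by
      have := rev_ne_zero ({g} : Multiset k)
      simpa [rev] using this
    rw [rev_cons, rootMultiplicity_mul (mul_ne_zero h0 (rev_ne_zero G)), ih,
      Multiset.count_cons, add_comm]
    congr 1
    split_ifs with h
    · subst h
      have : (1 - C y⁻¹ * X : k[X]) = C (-y⁻¹) * (X - C y) := by
        rw [mul_sub, ← C_mul]
        simp [hy]
        ring
      rw [this, rootMultiplicity_mul (by
        rw [← this]; exact h0), rootMultiplicity_C, zero_add, rootMultiplicity_X_sub_C_self]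
    · apply rootMultiplicity_eq_zero
      intro hr
      apply h
      rw [IsRoot.def, eval_sub, eval_one, eval_mul, eval_C, eval_X, sub_eq_zero] at hr
      exact (eq_inv_of_mul_eq_one_left hr.symm).symm

/-- every polynomial over an algebraically closed field with constant coefficient `1` is
`∏ (1 - g T)` -/
theorem exists_rev [IsAlgClosed k] (P : k[X]) (hP : P.coeff 0 = 1) :
    ∃ G : Multiset k, P = rev G ∧ (0 : k) ∉ G ∧ ∀ g ∈ G, P.IsRoot g⁻¹ := by
  have hP0 : P ≠ 0 := by
    rintro rfl
    simp at hP
  have hr0 : ∀ r ∈ P.roots, r ≠ 0 := by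
    rintro r hr rfl
    have := (mem_roots hP0).mp hr
    rw [IsRoot.def, ← coeff_zero_eq_eval_zero, hP] at this
    exact one_ne_zero this
  have hspl : P = C P.leadingCoeff * (P.roots.map fun a => X - C a).prod :=
    (IsAlgClosed.splits P).eq_prod_roots
  have key : ∀ s : Multiset k, (∀ r ∈ s, r ≠ 0) →
      (s.map fun a => X - C a).prod = C (s.map fun a => -a).prod * rev (s.map fun a => a⁻¹) := by
    intro s
    induction s using Multiset.induction_on with
    | empty => intro _; simp [rev_zero]
    | cons a s ih =>
      intro h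
      have ha : a ≠ 0 := h a (Multiset.mem_cons_self a s)
      rw [Multiset.map_cons, Multiset.prod_cons, ih fun r hr => h r (Multiset.mem_cons_of_mem hr),
        Multiset.map_cons, Multiset.prod_cons, Multiset.map_cons, rev_cons, C_mul]
      have : (X - C a : k[X]) = C (-a) * (1 - C a⁻¹ * X) := by
        rw [mul_sub, ← mul_assoc, ← C_mul]
        simp [ha]
        ring
      rw [this]
      ring
  rw [key _ hr0, ← mul_assoc, ← C_mul] at hspl
  have h1 : P.leadingCoeff * (P.roots.map fun a => -a).prod = 1 := by
    have := congrArg (fun p => coeff p 0) hspl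
    simp only [coeff_C_mul, rev_coeff_zero, mul_one, hP] at this
    exact this.symm
  rw [h1, C_1, one_mul] at hspl
  refine ⟨_, hspl, ?_, ?_⟩
  · rw [Multiset.mem_map]
    rintro ⟨r, hr, h⟩
    exact hr0 r hr (inv_eq_zero.mp h)
  · intro g hg
    obtain ⟨r, hr, rfl⟩ := Multiset.mem_map.mp hg
    rw [inv_inv]
    exact (mem_roots hP0).mp hr

end field

section int

/-- the algebraic integers -/
abbrev AI : Subalgebra ℤ ℂ := integralClosure ℤ ℂ

/-- a polynomial over the algebraic integers with constant coefficient `1` is `∏ (1 - g T)` with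
algebraic integers `g` -/
theorem exists_rev_int (P : AI[X]) (hP : P.coeff 0 = 1) :
    ∃ G : Multiset AI, P = rev G ∧ (0 : AI) ∉ G := by
  classical
  have hinj : Function.Injective (algebraMap AI ℂ) := FaithfulSMul.algebraMap_injective AI ℂ
  obtain ⟨G, hG, h0, hroot⟩ := exists_rev (P.map (algebraMap AI ℂ))
    (by rw [coeff_map, hP, map_one])
  have hint : ∀ g ∈ G, g ∈ AI := by
    intro g hg
    have hg0 : g ≠ 0 := fun h => h0 (h ▸ hg)
    have h1 := hroot g hg
    rw [IsRoot.def, eval_map] at h1
    have : Invertible (g⁻¹) := invertibleOfNonzero (inv_ne_zero hg0)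
    have h2 := (eval₂_reverse_eq_zero_iff (algebraMap AI ℂ) g⁻¹ P).mpr h1
    have hmonic : P.reverse.Monic := by
      rw [Monic, reverse_leadingCoeff, trailingCoeff,
        natTrailingDegree_eq_zero.mpr (Or.inr (by rw [hP]; exact one_ne_zero)), hP]
    have h3 : IsIntegral AI g := by
      refine ⟨P.reverse, hmonic, ?_⟩
      have h4 : ⅟(g⁻¹) = g := by rw [invOf_eq_inv, inv_inv]
      rw [h4] at h2
      exact h2
    exact isIntegral_trans (R := ℤ) (A := AI) g h3
  obtain ⟨G', hG'⟩ : ∃ G' : Multiset AI, G'.map (algebraMap AI ℂ) = G := by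
    refine ⟨G.pmap (fun g hg => (⟨g, hg⟩ : AI)) hint, ?_⟩
    rw [Multiset.map_pmap]
    exact Multiset.pmap_eq_map _ _ _ _ |>.trans (Multiset.map_id G)
  refine ⟨G', ?_, ?_⟩
  · apply Polynomial.map_injective _ hinj
    rw [hG, ← hG', rev_map]
  · intro h
    apply h0
    rw [← hG', Multiset.mem_map]
    exact ⟨0, h, map_zero _⟩

/-- counting under a map -/
theorem count_le_map {α β : Type} [DecidableEq α] [DecidableEq β] (f : α → β) (G : Multiset α)
    (g : α) : G.count g ≤ (G.map f).count (f g) := by
  rw [Multiset.count_map, Multiset.count, Multiset.countP_eq_card_filter]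
  exact Multiset.card_le_card (Multiset.monotone_filter_right G fun a ha => by rw [ha])

/-- the elements of multiplicity `≥ 2`: if the multiplicities under a map are at most `1` more
than those of `U`, there are at most `2 card U` of them. -/
theorem nonsimple_le {α β : Type} [DecidableEq α] [DecidableEq β] (f : α → β) (G : Multiset α)
    (U : Multiset β) (h : ∀ y, (G.map f).count y ≤ U.count y + 1) :
    ∑ g ∈ G.toFinset with 2 ≤ G.count g, G.count g ≤ 2 * U.card := by
  have h1 : ∑ g ∈ G.toFinset with 2 ≤ G.count g, G.count g =
      ∑ y ∈ (G.map f).toFinset, ∑ g ∈ (G.toFinset.filter (fun g => 2 ≤ G.count g)) with f g = y,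
        G.count g := by
    rw [Finset.sum_fiberwise_of_maps_to]
    intro g hg
    rw [Multiset.mem_toFinset]
    exact Multiset.mem_map_of_mem f (by
      have := (Finset.mem_filter.mp hg).1
      exact Multiset.mem_toFinset.mp this)
  rw [h1]
  have h2 : ∀ y ∈ (G.map f).toFinset,
      ∑ g ∈ (G.toFinset.filter (fun g => 2 ≤ G.count g)) with f g = y, G.count g ≤
        2 * U.count y := by
    intro y _
    have hle : ∑ g ∈ (G.toFinset.filter (fun g => 2 ≤ G.count g)) with f g = y, G.count g ≤
        (G.map f).count y := by
      rw [Multiset.count_map]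
      calc ∑ g ∈ (G.toFinset.filter (fun g => 2 ≤ G.count g)) with f g = y, G.count g
          ≤ ∑ g ∈ (G.filter (fun a => y = f a)).toFinset,
              (G.filter (fun a => y = f a)).count g := by
            have e1 : ∑ g ∈ (G.filter (fun a => y = f a)).toFinset,
                (G.filter (fun a => y = f a)).count g =
                ∑ g ∈ (G.filter (fun a => y = f a)).toFinset, G.count g := by
              refine Finset.sum_congr rfl fun g hg => ?_
              rw [Multiset.mem_toFinset, Multiset.mem_filter] at hg
              rw [Multiset.count_filter_of_pos (p := fun a => y = f a) hg.2]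
            rw [e1]
            refine Finset.sum_le_sum_of_subset fun g hg => ?_
            rw [Finset.mem_filter, Finset.mem_filter] at hg
            rw [Multiset.mem_toFinset, Multiset.mem_filter]
            exact ⟨Multiset.mem_toFinset.mp hg.1.1, hg.2.symm⟩
        _ = (G.filter (fun a => y = f a)).card := Multiset.toFinset_sum_count_eq _
    rcases Finset.eq_empty_or_nonempty
      ((G.toFinset.filter (fun g => 2 ≤ G.count g)).filter (fun g => f g = y)) with he | ⟨g, hg⟩
    · rw [he]
      simp
    · rw [Finset.mem_filter, Finset.mem_filter] at hg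
      have h3 : 2 ≤ (G.map f).count y := by
        rw [← hg.2]
        exact hg.1.2.trans (count_le_map f G g)
      have := h y
      omega
  calc ∑ y ∈ (G.map f).toFinset, ∑ g ∈ (G.toFinset.filter (fun g => 2 ≤ G.count g)) with f g = y,
        G.count g ≤ ∑ y ∈ (G.map f).toFinset, 2 * U.count y := Finset.sum_le_sum h2
    _ = 2 * ∑ y ∈ (G.map f).toFinset, U.count y := by rw [Finset.mul_sum]
    _ ≤ 2 * ∑ y ∈ (G.map f).toFinset ∪ U.toFinset, U.count y :=
        Nat.mul_le_mul_left 2 (Finset.sum_le_sum_of_subset Finset.subset_union_left)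
    _ = 2 * ∑ y ∈ U.toFinset, U.count y := by
        congr 1
        symm
        refine Finset.sum_subset Finset.subset_union_right fun y _ hy => ?_
        rw [Multiset.mem_toFinset] at hy
        exact Multiset.count_eq_zero.mpr hy
    _ = 2 * U.card := by rw [Multiset.toFinset_sum_count_eq]

end int

end ST64
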