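import Pool.Agent.LibST64.A3

/-!
# Multiplicities of roots under reduction (MP_93fb11_ag), II
-/

set_option linter.style.haveILetI false
set_option linter.unusedSectionVars false

open Polynomial

namespace ST64

theorem roots_rev {k : Type} [Field k] [DecidableEq k] (G : Multiset k) (h0 : (0 : k) ∉ G) :
    (rev G).roots = G.map fun g => g⁻¹ := by
  ext y
  rw [count_roots]
  by_cases hy : y = 0
  · subst hy
    rw [Multiset.count_eq_zero.mpr]
    · apply rootMultiplicity_eq_zero
      rw [IsRoot.def, ← coeff_zero_eq_eval_zero, rev_coeff_zero]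
      exact one_ne_zero
    · rw [Multiset.mem_map]
      rintro ⟨g, hg, h⟩
      exact h0 (inv_eq_zero.mp h ▸ hg)
  · rw [rootMultiplicity_rev G y hy]
    have := Multiset.count_map_eq_count' (fun g : k => g⁻¹) G inv_injective y⁻¹
    rw [inv_inv] at this
    exact this.symm

theorem card_roots_split (P : ℂ[X]) : ∑ x ∈ P.roots.toFinset, P.roots.count x = P.natDegree := by
  rw [Multiset.toFinset_sum_count_eq]
  exact (IsAlgClosed.splits P).natDegree_eq_card_roots.symm

/-- number of simple zeros -/
theorem simple_count (P : ℂ[X]) (hP : P ≠ 0) :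
    P.natDegree = {x : ℂ | P.rootMultiplicity x = 1}.ncard +
      ∑ x ∈ P.roots.toFinset with 2 ≤ P.roots.count x, P.roots.count x := by
  classical
  have h1 : {x : ℂ | P.rootMultiplicity x = 1} =
      ((P.roots.toFinset.filter fun x => P.roots.count x = 1 : Finset ℂ) : Set ℂ) := by
    ext x
    simp only [Set.mem_ofPred_eq, Finset.coe_filter, Multiset.mem_toFinset, count_roots]
    constructor
    · intro h
      refine ⟨?_, h⟩
      rw [mem_roots hP]
      by_contra hr
      rw [rootMultiplicity_eq_zero hr] at h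
      omega
    · exact fun h => h.2
  rw [h1, Set.ncard_coe_finset, ← card_roots_split P]
  have h2 : (P.roots.toFinset.filter fun x => P.roots.count x = 1).card =
      ∑ x ∈ P.roots.toFinset with P.roots.count x = 1, P.roots.count x := by
    rw [Finset.card_eq_sum_ones]
    refine Finset.sum_congr rfl fun x hx => ?_
    exact (Finset.mem_filter.mp hx).2.symm
  rw [h2, ← Finset.sum_union]
  · refine Finset.sum_congr ?_ fun _ _ => rfl
    ext x
    rw [Finset.mem_union, Finset.mem_filter, Finset.mem_filter, Multiset.mem_toFinset]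
    constructor
    · intro h
      have := Multiset.count_pos.mpr h
      by_cases h3 : P.roots.count x = 1
      · exact Or.inl ⟨h, h3⟩
      · exact Or.inr ⟨h, by omega⟩
    · rintro (h | h) <;> exact h.1
  · rw [Finset.disjoint_left]
    intro x hx hx'
    have a := (Finset.mem_filter.mp hx).2
    have b := (Finset.mem_filter.mp hx').2
    omega

/-- **Multiplicities and reduction.** -/
theorem reduce {F₀ k : Type} [Field F₀] [PerfectField F₀] [Field k] [Algebra F₀ k]
    (P : AI[X]) (hP : P.coeff 0 = 1) (φ : AI →+* k) (q : F₀[X])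
    (hq : P.map φ = q.map (algebraMap F₀ k))
    (hdeg : (P.map (algebraMap AI ℂ)).natDegree ≤ q.natDegree) :
    (P.map (algebraMap AI ℂ)).natDegree = q.natDegree ∧
    (∀ (M : ℕ), (∀ f : F₀[X], Irreducible f → ¬ f ^ (M + 1) ∣ q) →
      ∀ x : ℂ, (P.map (algebraMap AI ℂ)).rootMultiplicity x ≤ M) ∧
    (∀ q₀ r : F₀[X], q = q₀ * r → (∀ f : F₀[X], Irreducible f → ¬ f ^ 2 ∣ r) →
      (P.map (algebraMap AI ℂ)).natDegree ≤
        {x : ℂ | (P.map (algebraMap AI ℂ)).rootMultiplicity x = 1}.ncard + 2 * q₀.natDegree) := by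
  classical
  have hinj : Function.Injective (algebraMap AI ℂ) := FaithfulSMul.algebraMap_injective AI ℂ
  obtain ⟨G, hG, h0⟩ := exists_rev_int P hP
  have hPc : P.map (algebraMap AI ℂ) = rev (G.map (algebraMap AI ℂ)) := by rw [hG, rev_map]
  have hPk : q.map (algebraMap F₀ k) = rev (G.map φ) := by rw [← hq, hG, rev_map]
  have h0c : (0 : ℂ) ∉ G.map (algebraMap AI ℂ) := by
    rw [Multiset.mem_map]
    rintro ⟨g, hg, h⟩
    exact h0 ((hinj (h.trans (map_zero _).symm)) ▸ hg)
  have hcard : (P.map (algebraMap AI ℂ)).natDegree = G.card := by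
    rw [hPc, natDegree_rev, Multiset.filter_eq_self.mpr, Multiset.card_map]
    rintro a ha rfl
    exact h0c ha
  have hcardk : q.natDegree = ((G.map φ).filter (· ≠ 0)).card := by
    rw [← natDegree_rev, ← hPk, natDegree_map]
  have hle : ((G.map φ).filter (· ≠ 0)).card ≤ (G.map φ).card :=
    Multiset.card_le_card (Multiset.filter_le _ _)
  rw [Multiset.card_map] at hle
  have heq : (P.map (algebraMap AI ℂ)).natDegree = q.natDegree := by omega
  have hall : (G.map φ).filter (· ≠ 0) = G.map φ := by
    apply Multiset.eq_of_le_of_card_le (Multiset.filter_le _ _)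
    rw [Multiset.card_map]
    omega
  have h0k : (0 : k) ∉ G.map φ := by
    intro h
    rw [← hall, Multiset.mem_filter] at h
    exact h.2 rfl
  have hq0 : q ≠ 0 := by
    rintro rfl
    rw [Polynomial.map_zero] at hPk
    exact rev_ne_zero _ hPk.symm
  refine ⟨heq, ?_, ?_⟩
  · intro M hM x
    by_contra hlt
    push Not at hlt
    by_cases hx : x = 0
    · subst hx
      rw [rootMultiplicity_eq_zero] at hlt
      · omega
      · rw [IsRoot.def, ← coeff_zero_eq_eval_zero, hPc, rev_coeff_zero]
        exact one_ne_zero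
    rw [hPc, rootMultiplicity_rev _ x hx] at hlt
    have hmem : x⁻¹ ∈ G.map (algebraMap AI ℂ) := by
      rw [← Multiset.count_pos]
      omega
    obtain ⟨g, hg, hgx⟩ := Multiset.mem_map.mp hmem
    rw [← hgx, Multiset.count_map_eq_count' _ _ hinj] at hlt
    have hφg : φ g ≠ 0 := fun h => h0k (Multiset.mem_map.mpr ⟨g, hg, h⟩)
    have h1 : M + 1 ≤ (q.map (algebraMap F₀ k)).rootMultiplicity (φ g)⁻¹ := by
      rw [hPk, rootMultiplicity_rev _ _ (inv_ne_zero hφg), inv_inv]
      exact (Nat.succ_le_of_lt hlt).trans (count_le_map φ G g)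
    obtain ⟨f, hf, hdvd⟩ := exists_irr_pow q hq0 (φ g)⁻¹ h1
    exact hM f hf hdvd
  · intro q₀ r hqr hr
    have hPc0 : P.map (algebraMap AI ℂ) ≠ 0 := by rw [hPc]; exact rev_ne_zero _
    rw [simple_count _ hPc0]
    refine Nat.add_le_add_left ?_ _
    -- the map on roots
    set f : ℂ → k := fun x => if h : x⁻¹ ∈ AI then (φ ⟨x⁻¹, h⟩)⁻¹ else 0 with hf
    have hroots : (P.map (algebraMap AI ℂ)).roots.map f = (q.map (algebraMap F₀ k)).roots := by
      rw [hPc, hPk, roots_rev _ h0c, roots_rev _ h0k, Multiset.map_map, Multiset.map_map,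
        Multiset.map_map]
      refine Multiset.map_congr rfl fun g _ => ?_
      simp only [Function.comp, hf, inv_inv]
      have h1 : algebraMap AI ℂ g ∈ AI := g.2
      rw [dif_pos h1]
      rfl
    have hr0 : r ≠ 0 := fun h => hq0 (by rw [hqr, h, mul_zero])
    have hq₀0 : q₀ ≠ 0 := fun h => hq0 (by rw [hqr, h, zero_mul])
    have hmap0 : ∀ p : F₀[X], p ≠ 0 → p.map (algebraMap F₀ k) ≠ 0 := fun p hp =>
      (Polynomial.map_ne_zero_iff (algebraMap F₀ k).injective).mpr hp
    have key := nonsimple_le f (P.map (algebraMap AI ℂ)).roots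
      (q₀.map (algebraMap F₀ k)).roots (by
        intro y
        rw [hroots, count_roots, count_roots, hqr, Polynomial.map_mul, rootMultiplicity_mul
          (mul_ne_zero (hmap0 _ hq₀0) (hmap0 _ hr0))]
        refine Nat.add_le_add_left ?_ _
        by_contra hlt
        push Not at hlt
        obtain ⟨f, hf, hdvd⟩ := exists_irr_pow r hr0 y (Nat.succ_le_of_lt hlt)
        exact hr f hf hdvd)
    refine key.trans (Nat.mul_le_mul_left 2 ?_)
    exact (card_roots' _).trans (natDegree_map_le)

end ST64
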