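import Pool.Agent.LibST64.A2
import Pool.Agent.LibST64.A4

/-!
# The main theorem (MP_93fb11_ag)
-/

set_option linter.style.haveILetI false
set_option linter.unusedSectionVars false

open Polynomial WeierstrassCurve IsLocalRing
open scoped PowerSeries.WithPiTopology

namespace FFBSD

/-- a residue field of characteristic `l` of the ring of algebraic integers -/
theorem exists_residue {l : ℕ} (hl : l.Prime) :
    ∃ (k : Type) (_ : Field k) (_ : CharP k l), Nonempty (AlgInt →+* k) := by
  have hne : Ideal.span {(l : AlgInt)} ≠ ⊤ := by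
    intro h
    rw [Ideal.span_singleton_eq_top] at h
    obtain ⟨u, hu⟩ := h.exists_right_inv
    have h1 : IsIntegral ℤ ((l : ℚ)⁻¹) := by
      have h2 : IsIntegral ℤ ((l : ℂ)⁻¹) := by
        have h3 : (l : ℂ) * (u : ℂ) = 1 := by
          have := congrArg (algebraMap AlgInt ℂ) hu
          rw [map_mul, map_one, map_natCast] at this
          exact this
        have h4 : (l : ℂ)⁻¹ = (u : ℂ) := by
          rw [eq_comm]
          exact eq_inv_of_mul_eq_one_right h3
        rw [h4]
        exact u.2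
      have h5 : ((l : ℂ)⁻¹) = algebraMap ℚ ℂ ((l : ℚ)⁻¹) := by simp
      rw [h5] at h2
      exact (isIntegral_algebraMap_iff (algebraMap ℚ ℂ).injective).mp h2
    obtain ⟨n, hn⟩ := IsIntegrallyClosed.isIntegral_iff.mp h1
    have hl0 : (l : ℚ) ≠ 0 := Nat.cast_ne_zero.mpr hl.ne_zero
    have h6 : (l : ℚ) * (n : ℚ) = 1 := by
      rw [eq_intCast] at hn
      rw [hn, mul_inv_cancel₀ hl0]
    have h7 : (l : ℤ) * n = 1 := by exact_mod_cast h6
    have h8 : IsUnit (l : ℤ) := IsUnit.of_mul_eq_one n h7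
    rw [Int.isUnit_iff_natAbs_eq] at h8
    simp only [Int.natAbs_natCast] at h8
    exact hl.one_lt.ne' h8
  obtain ⟨m, hm, hle⟩ := Ideal.exists_le_maximal _ hne
  letI : Field (AlgInt ⧸ m) := Ideal.Quotient.field m
  have h0 : ((l : ℕ) : AlgInt ⧸ m) = 0 := by
    have h1 : (l : AlgInt) ∈ m := hle (Ideal.mem_span_singleton_self _)
    have h2 := Ideal.Quotient.eq_zero_iff_mem.mpr h1
    rw [map_natCast] at h2
    exact h2
  have hchar : CharP (AlgInt ⧸ m) l := by
    obtain ⟨p, hp⟩ := CharP.exists (AlgInt ⧸ m)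
    have h1 : p ∣ l := (CharP.cast_eq_zero_iff _ p l).mp h0
    rcases (Nat.dvd_prime hl).mp h1 with rfl | rfl
    · exact absurd rfl (CharP.char_ne_one (AlgInt ⧸ m) 1)
    · exact hp
  exact ⟨AlgInt ⧸ m, inferInstance, hchar, ⟨Ideal.Quotient.mk m⟩⟩

variable {F K : Type} [Field F] [Field K] [Algebra F K]

theorem locPol_coeff_zero (E : WeierstrassCurve K) (v : Place F K) : (locPol E v).coeff 0 = 1 := by
  rw [locPol, Polynomial.coeff_zero_eq_eval_zero, Polynomial.expand_eval,
    zero_pow (place_deg_ne v), ← Polynomial.coeff_zero_eq_eval_zero, lp_coeff_zero]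

/-- a polynomial equal to `L(E, c)` has algebraic integer coefficients and is known modulo `l` -/
theorem twL_poly {l : ℕ} (hl : l.Prime) (E : WeierstrassCurve K) {c : Place F K → ℂ}
    (hc : PowChar l c) (P : ℂ[X]) (hP : IsTwL E c (P : PowerSeries ℂ)) (L₀ : PowerSeries ℤ)
    (hL₀ : IsLFunction F E L₀) :
    ∃ PA : AlgInt[X], PA.map (algebraMap AlgInt ℂ) = P ∧ PA.coeff 0 = 1 ∧
      ∀ (k : Type) [Field k] [CharP k l] (φ : AlgInt →+* k),
        ((PA.map φ : k[X]) : PowerSeries k) = PowerSeries.map (Int.castRingHom k) L₀ *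
          (((ramPol E c).map (Int.castRingHom k) : k[X]) : PowerSeries k) := by
  obtain ⟨LA, hLA, hred⟩ := twL_congr hl E hc _ hP L₀ hL₀
  have hinj : Function.Injective (algebraMap AlgInt ℂ) := FaithfulSMul.algebraMap_injective AlgInt ℂ
  set PA := PowerSeries.trunc (P.natDegree + 1) LA with hPA
  have h1 : (PA : PowerSeries AlgInt) = LA := by
    refine PowerSeries.ext fun n => ?_
    rw [Polynomial.coeff_coe, hPA, PowerSeries.coeff_trunc]
    split_ifs with h
    · rfl
    · apply hinj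
      rw [← PowerSeries.coeff_map, hLA, Polynomial.coeff_coe,
        coeff_eq_zero_of_natDegree_lt (by omega), map_zero]
  have h2 : PA.map (algebraMap AlgInt ℂ) = P := by
    apply Polynomial.coe_injective ℂ
    rw [← hLA, ← h1, Polynomial.polynomial_map_coe]
  refine ⟨PA, h2, ?_, fun k _ _ φ => ?_⟩
  · -- the constant coefficient
    apply hinj
    rw [← coeff_map, h2, map_one]
    have h3 := (isProd_iff _ _).mp hP 0
    obtain ⟨s₀, hs₀⟩ := h3
    have h4 := hs₀ s₀ (Finset.Subset.refl _)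
    rw [Polynomial.coeff_coe] at h4
    rw [← h4, PowerSeries.coeff_zero_eq_constantCoeff_apply, map_prod]
    refine Finset.prod_eq_one fun v _ => ?_
    rw [PowerSeries.constantCoeff_invOfUnit]
    simp
  · rw [← hred k φ, ← h1, Polynomial.polynomial_map_coe]

/-- multiplicities -/
theorem twL_mult {l : ℕ} (hl : l.Prime) (E : WeierstrassCurve K) {c : Place F K → ℂ}
    (hc : PowChar l c) (P : ℂ[X]) (hP : IsTwL E c (P : PowerSeries ℂ)) (P₀ : ℤ[X])
    (hP₀ : IsLFunction F E (P₀ : PowerSeries ℤ))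
    (hdeg : P.natDegree ≤ (redl l (P₀ * ramPol E c)).natDegree) :
    P.natDegree = (redl l (P₀ * ramPol E c)).natDegree ∧
    (∀ M : ℕ, MultLe l M (P₀ * ramPol E c) → ∀ x : ℂ, P.rootMultiplicity x ≤ M) ∧
    (MultLe l 1 (ramPol E c) →
      P.natDegree ≤ {x : ℂ | P.rootMultiplicity x = 1}.ncard + 2 * (redl l P₀).natDegree) := by
  haveI := Fact.mk hl
  obtain ⟨k, _, hk, ⟨φ⟩⟩ := exists_residue hl
  letI : Algebra (ZMod l) k := ZMod.algebra k l
  obtain ⟨PA, h1, h2, h3⟩ := twL_poly hl E hc P hP _ hP₀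
  have h4 : PA.map φ = (redl l (P₀ * ramPol E c)).map (algebraMap (ZMod l) k) := by
    apply Polynomial.coe_injective k
    rw [h3 k φ, redl, Polynomial.map_map,
      show (algebraMap (ZMod l) k).comp (Int.castRingHom (ZMod l)) = Int.castRingHom k from
        Subsingleton.elim _ _, Polynomial.map_mul, Polynomial.coe_mul]
    simp only [Polynomial.polynomial_map_coe]
  have h5 := ST64.reduce PA h2 φ _ h4 (by rw [h1]; exact hdeg)
  rw [h1] at h5
  refine ⟨h5.1, h5.2.1, fun hr => ?_⟩
  have h6 := h5.2.2 (redl l P₀) (redl l (ramPol E c)) (by rw [redl, redl, redl, Polynomial.map_mul])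
    hr
  exact h6

end FFBSD
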