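import Pool.Agent.LibST64.A5
import Pool.Agent.LibAF.G1

/-!
# Constant extensions of `l`-power degree do not change the `L`-function modulo `l` (MP_93fb11_ag)
-/

set_option linter.style.haveILetI false
set_option linter.unusedSectionVars false

open Polynomial WeierstrassCurve IsLocalRing
open scoped PowerSeries.WithPiTopology

namespace FFBSD

theorem pow_eq_expand {l : ℕ} [Fact l.Prime] (f : (ZMod l)[X]) (b : ℕ) :
    f ^ l ^ b = Polynomial.expand (ZMod l) (l ^ b) f := by
  induction b with
  | zero => simp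
  | succ b ih => rw [pow_succ, pow_mul, ih, ← ZMod.expand_card, Polynomial.expand_expand, mul_comm]

theorem redl_mul (l : ℕ) (p q : ℤ[X]) : redl l (p * q) = redl l p * redl l q := by
  rw [redl, redl, redl, Polynomial.map_mul]

theorem redl_prod (l : ℕ) {ι : Type} (s : Finset ι) (p : ι → ℤ[X]) :
    redl l (∏ i ∈ s, p i) = ∏ i ∈ s, redl l (p i) := by
  rw [redl, Polynomial.map_prod]
  rfl

theorem redl_expand (l m : ℕ) (p : ℤ[X]) :
    redl l (Polynomial.expand ℤ m p) = Polynomial.expand (ZMod l) m (redl l p) := by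
  rw [redl, redl, Polynomial.map_expand]

/-- transfer of an identity with roots of unity of `l`-power order to characteristic `l` -/
theorem root_red {l : ℕ} (hl : l.Prime) (b : ℕ) {η : ℂ} (hη : IsPrimitiveRoot η (l ^ b))
    (A : ℤ[X]) (p : ℤ[X]) (d : ℕ → ℕ)
    (h : A.map (Int.castRingHom ℂ) = ∏ i ∈ Finset.range (l ^ b),
      (p.map (Int.castRingHom ℂ)).comp (C (η ^ d i) * X)) :
    redl l A = (redl l p) ^ l ^ b := by
  haveI := Fact.mk hl
  have hint : IsIntegral ℤ η := IsIntegral.of_pow (Nat.pos_of_ne_zero (pow_ne_zero b hl.ne_zero))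
    (hη.pow_eq_one ▸ isIntegral_one)
  set η' : AlgInt := ⟨η, hint⟩ with hη'
  have hinj : Function.Injective (algebraMap AlgInt ℂ) := FaithfulSMul.algebraMap_injective AlgInt ℂ
  have h1 : A.map (Int.castRingHom AlgInt) = ∏ i ∈ Finset.range (l ^ b),
      (p.map (Int.castRingHom AlgInt)).comp (C (η' ^ d i) * X) := by
    apply Polynomial.map_injective _ hinj
    rw [Polynomial.map_map, Polynomial.map_prod, show (algebraMap AlgInt ℂ).comp
      (Int.castRingHom AlgInt) = Int.castRingHom ℂ from Subsingleton.elim _ _, h]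
    refine Finset.prod_congr rfl fun i _ => ?_
    rw [Polynomial.map_comp, Polynomial.map_map, show (algebraMap AlgInt ℂ).comp
      (Int.castRingHom AlgInt) = Int.castRingHom ℂ from Subsingleton.elim _ _,
      Polynomial.map_mul, Polynomial.map_C, Polynomial.map_X]
    have h0 : algebraMap AlgInt ℂ (η' ^ d i) = η ^ d i := by
      rw [map_pow]
      rfl
    rw [h0]
  obtain ⟨k, _, hk, ⟨φ⟩⟩ := exists_residue hl
  letI : Algebra (ZMod l) k := ZMod.algebra k l
  have hφ : φ η' = 1 := by
    have h2 : η' ^ l ^ b = 1 := by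
      apply Subtype.ext
      rw [SubmonoidClass.coe_pow]
      exact hη.pow_eq_one
    have h3 : (φ η' - 1) ^ l ^ b = 0 := by
      rw [sub_pow_char_pow, ← map_pow, h2, map_one, one_pow, sub_self]
    exact sub_eq_zero.mp (pow_eq_zero_iff (pow_ne_zero b hl.ne_zero) |>.mp h3)
  have h4 : ∀ q : ℤ[X], (q.map (Int.castRingHom AlgInt)).map φ =
      (redl l q).map (algebraMap (ZMod l) k) := by
    intro q
    rw [redl, Polynomial.map_map, Polynomial.map_map]
    congr 1
    exact Subsingleton.elim _ _
  apply Polynomial.map_injective _ (algebraMap (ZMod l) k).injective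
  rw [← h4, h1, Polynomial.map_prod, Polynomial.map_pow, ← h4]
  rw [Finset.prod_congr rfl (g := fun _ => (p.map (Int.castRingHom AlgInt)).map φ)]
  · rw [Finset.prod_const, Finset.card_range]
  · intro i _
    rw [Polynomial.map_comp, Polynomial.map_mul, Polynomial.map_C, Polynomial.map_X, map_pow, hφ,
      one_pow, C_1, one_mul, comp_X]

section

variable {F M F' L : Type} [Field F] [Field M] [Field F'] [Field L] [Finite F] [Finite F']
  [Algebra F M] [Algebra F F'] [Algebra M L] [Algebra F' L] [Algebra F L]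
  [IsScalarTower F M L] [IsScalarTower F F' L]

/-- the place `w` of `L` over `F'` lies above the place `v` of `M` over `F` -/
def LiesAbove (w : Place F' L) (v : Place F M) : Prop :=
  ∀ x : M, algebraMap M L x ∈ w.O ↔ x ∈ v.O

theorem tower_red {l b : ℕ} (hl : l.Prime) (h6 : (l ^ b).Coprime 6) (hlF : ¬ l ∣ Nat.card F)
    (hM : FunField F M) (hk : ∀ x : M, IsAlgebraic F x → x ∈ Set.range (algebraMap F M))
    (hgen : IntermediateField.adjoin M (Set.range (algebraMap F' L)) = ⊤)
    (hm : Module.finrank F F' = l ^ b) (E : WeierstrassCurve M) (hE : E.Δ ≠ 0) (P₀ : ℤ[X])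
    (hP₀ : IsLFunction F E (P₀ : PowerSeries ℤ)) (S : Finset (Place F M)) (c : Place F' L → ℂ)
    (hcS : ∀ w, c w = 0 ↔ ∃ v ∈ S, LiesAbove w v) :
    {w | c w = 0}.Finite ∧
    ∃ P' : ℤ[X], IsLFunction F' (E.map (algebraMap M L)) (P' : PowerSeries ℤ) ∧
      redl l P' = redl l P₀ ∧
      redl l (ramPol (E.map (algebraMap M L)) c) = redl l (∏ v ∈ S, locPol E v) := by
  classical
  haveI := Fact.mk hl
  have hpos : 0 < l ^ b := pow_pos hl.pos b
  have hlq : (l ^ b).Coprime (Nat.card F) := Nat.Coprime.pow_left b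
    ((Nat.Prime.coprime_iff_not_dvd hl).mpr hlF)
  obtain ⟨P', hP', hid⟩ := const_global hM hk hgen hm h6 hlq E hE P₀ hP₀
  haveI : NeZero (l ^ b) := ⟨hpos.ne'⟩
  haveI : NeZero ((l ^ b : ℕ) : ℂ) := ⟨by exact_mod_cast hpos.ne'⟩
  obtain ⟨η, hη⟩ := HasEnoughRootsOfUnity.exists_primitiveRoot ℂ (l ^ b)
  have hexp : Function.Injective (Polynomial.expand (ZMod l) (l ^ b)) :=
    Polynomial.expand_injective hpos
  -- the L-function
  have h1 : redl l P' = redl l P₀ := by
    apply hexp
    rw [← redl_expand, ← pow_eq_expand]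
    refine root_red hl b hη _ P₀ (fun i => i) ?_
    rw [Polynomial.map_expand]
    exact hid ℂ η hη
  -- places
  obtain ⟨hgal, hfd⟩ := g1_galois hgen
  obtain ⟨e, he1, he2⟩ := exists_placeEquiv (F := F) (F' := F') (L := L) (l ^ b) hm
  obtain ⟨r, T, -, hT1, hT2, -, -⟩ := fk_fib (F := F) (K₀ := M) (K := L)
  have hset : {w | c w = 0} = e ⁻¹' ((S.biUnion T : Finset (Place F L)) : Set (Place F L)) := by
    ext w
    rw [Set.mem_ofPred_eq, hcS, Set.mem_preimage, Finset.mem_coe, Finset.mem_biUnion]
    refine exists_congr fun v => and_congr_right fun _ => ?_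
    rw [hT1]
    unfold LiesAbove Place.Above
    rw [he1]
  have hfin : {w | c w = 0}.Finite := by
    rw [hset]
    exact (Finset.finite_toSet _).preimage e.injective.injOn
  refine ⟨hfin, P', hP', h1, ?_⟩
  have hloc : ∀ w : Place F' L, Polynomial.expand ℤ (l ^ b) (locPol (E.map (algebraMap M L)) w) =
      locPol (E.map (algebraMap M L)) (e w) := by
    intro w
    rw [locPol, locPol, Polynomial.expand_expand, he2,
      lp_congr (E.map (algebraMap M L)) (e w).O w.O (he1 w)]
  have h2 : Polynomial.expand ℤ (l ^ b) (ramPol (E.map (algebraMap M L)) c) =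
      ∏ v ∈ S, ∏ w ∈ T v, locPol (E.map (algebraMap M L)) w := by
    have h3 : ramPol (E.map (algebraMap M L)) c =
        ∏ w ∈ hfin.toFinset, locPol (E.map (algebraMap M L)) w :=
      finprod_mem_eq_finite_toFinset_prod _ hfin
    rw [h3, map_prod, Finset.prod_congr rfl fun w _ => hloc w]
    have hdisj : (S : Set (Place F M)).PairwiseDisjoint T := by
      intro v _ v' _ hne
      rw [Function.onFun, Finset.disjoint_left]
      intro w hw hw'
      exact hne (((hT2 v w).mp hw).symm.trans ((hT2 v' w).mp hw'))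
    rw [← Finset.prod_biUnion hdisj]
    refine Finset.prod_nbij' (fun w => e w) (fun w => e.symm w) ?_ ?_ ?_ ?_ ?_
    · intro w hw
      rw [Set.Finite.mem_toFinset, hset] at hw
      exact hw
    · intro w hw
      rw [Set.Finite.mem_toFinset, hset, Set.mem_preimage, Equiv.apply_symm_apply]
      exact hw
    · intro w _
      exact e.symm_apply_apply w
    · intro w _
      exact e.apply_symm_apply w
    · intro w _
      rfl
  have h4 : redl l (ramPol (E.map (algebraMap M L)) c) = redl l (∏ v ∈ S, locPol E v) := by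
    apply hexp
    rw [← redl_expand, h2, redl_prod, redl_prod, map_prod]
    refine Finset.prod_congr rfl fun v _ => ?_
    rw [← pow_eq_expand]
    refine root_red hl b hη _ (locPol E v) (fun i => i) ?_
    have h5 := const_factor hk hgen hm h6 hlq E hE η hη v (T v) (hT1 v)
    rw [Polynomial.map_prod]
    refine Eq.trans ?_ (h5.trans ?_)
    · refine Finset.prod_congr rfl fun w _ => ?_
      rw [twPol_one]
      rfl
    · refine Finset.prod_congr rfl fun i _ => ?_
      have h6 := twPol_rescale E v (1 : ℂ) (η ^ i)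
      rw [mul_one, twPol_one] at h6
      exact h6.symm
  exact h4

end

end FFBSD
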