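import Pool.Agent.LibST64.A2
import Pool.Agent.LibWeilE.E4a

/-!
# The logarithmic derivative of an Euler product (MP_93fb11_ag)
-/

set_option linter.style.haveILetI false
set_option linter.unusedSectionVars false

open Polynomial WeierstrassCurve IsLocalRing
open scoped PowerSeries.WithPiTopology

namespace FFBSD

/-- power sums for one Euler factor -/
noncomputable def psv (a q : ℤ) (d n : ℕ) : ℤ :=
  if n ≠ 0 ∧ d ∣ n then (d : ℤ) * WeilE.ps a q (n / d) else 0

/-- `T R' = R ∑ c_n T^n` -/
def LogD (R : PowerSeries ℤ) (c : ℕ → ℤ) : Prop :=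
  PowerSeries.X * PowerSeries.derivative ℤ R = R * PowerSeries.mk c

theorem LogD.mul {R S : PowerSeries ℤ} {c d : ℕ → ℤ} (hR : LogD R c) (hS : LogD S d) :
    LogD (R * S) (fun n => c n + d n) := by
  unfold LogD at *
  have e : (PowerSeries.mk fun n => c n + d n : PowerSeries ℤ) =
      PowerSeries.mk c + PowerSeries.mk d := by
    ext n
    simp
  rw [e, Derivation.leibniz, smul_eq_mul, smul_eq_mul]
  linear_combination S * hR + R * hS

theorem LogD.one : LogD 1 (fun _ => 0) := by
  unfold LogD
  have e : (PowerSeries.mk fun _ => (0 : ℤ)) = 0 := by ext; simp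
  rw [e, Derivation.map_one_eq_zero]
  simp

theorem LogD.prod {ι : Type} (s : Finset ι) (R : ι → PowerSeries ℤ) (c : ι → ℕ → ℤ)
    (h : ∀ i ∈ s, LogD (R i) (c i)) : LogD (∏ i ∈ s, R i) (fun n => ∑ i ∈ s, c i n) := by
  classical
  induction s using Finset.induction_on with
  | empty => simpa using LogD.one
  | insert i s hi ih =>
    rw [Finset.prod_insert hi]
    have h1 := (h i (Finset.mem_insert_self i s)).mul
      (ih fun j hj => h j (Finset.mem_insert_of_mem hj))
    have h2 : (fun n => ∑ j ∈ insert i s, c j n) = fun n => c i n + ∑ j ∈ s, c j n := by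
      funext n
      rw [Finset.sum_insert hi]
    rw [h2]
    exact h1

/-- one Euler factor -/
theorem LogD.factor (a q : ℤ) (d : ℕ) (hd : 0 < d) (R : PowerSeries ℤ)
    (hR : ((Polynomial.expand ℤ d (1 - C a * X + C q * X ^ 2) : ℤ[X]) : PowerSeries ℤ) * R = 1) :
    LogD R (psv a q d) := by
  set S₁ : PowerSeries ℤ := PowerSeries.mk fun k => if k = 0 then 0 else WeilE.ps a q k with hS₁
  have h1 : (1 - PowerSeries.C a * PowerSeries.X + PowerSeries.C q * PowerSeries.X ^ 2) * S₁ =
      PowerSeries.C a * PowerSeries.X - 2 * PowerSeries.C q * PowerSeries.X ^ 2 := by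
    ext m
    rw [add_mul, sub_mul, one_mul, mul_assoc, mul_assoc, pow_two, mul_assoc, mul_assoc 2]
    have h2 : (2 : PowerSeries ℤ) = PowerSeries.C 2 := (map_ofNat _ _).symm
    rw [h2]
    simp only [map_sub, map_add, PowerSeries.coeff_C_mul, hS₁, PowerSeries.coeff_mk]
    rcases m with _ | _ | _ | m
    · simp
    · simp [WeilE.ps, PowerSeries.coeff_succ_X_mul, PowerSeries.coeff_X]
    · simp [WeilE.ps, PowerSeries.coeff_succ_X_mul, PowerSeries.coeff_X]
      try ring
    · simp [WeilE.ps, PowerSeries.coeff_succ_X_mul, PowerSeries.coeff_X]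
      try ring
  have hS : PowerSeries.mk (psv a q d) =
      PowerSeries.C (d : ℤ) * PowerSeries.expand d hd.ne' S₁ := by
    ext n
    rw [PowerSeries.coeff_C_mul, PowerSeries.coeff_mk, psv]
    by_cases hdn : d ∣ n
    · obtain ⟨k, rfl⟩ := hdn
      rw [PowerSeries.coeff_expand_mul, hS₁, PowerSeries.coeff_mk]
      rcases Nat.eq_zero_or_pos k with rfl | hk
      · simp
      · rw [if_pos ⟨(Nat.mul_pos hd hk).ne', Dvd.intro k rfl⟩, if_neg hk.ne',
          Nat.mul_div_cancel_left k hd]
    · rw [PowerSeries.coeff_expand_of_not_dvd _ _ _ hdn, if_neg (fun h => hdn h.2), mul_zero]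
  set P : PowerSeries ℤ := ((Polynomial.expand ℤ d (1 - C a * X + C q * X ^ 2) : ℤ[X]) :
    PowerSeries ℤ) with hP
  have hPe : P = PowerSeries.expand d hd.ne'
      (1 - PowerSeries.C a * PowerSeries.X + PowerSeries.C q * PowerSeries.X ^ 2) := by
    rw [hP]
    simp only [map_add, map_sub, map_mul, map_one, map_pow, Polynomial.expand_C,
      Polynomial.expand_X, Polynomial.coe_add, Polynomial.coe_sub, Polynomial.coe_mul,
      Polynomial.coe_one, Polynomial.coe_C, Polynomial.coe_X, Polynomial.coe_pow,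
      PowerSeries.expand_C, PowerSeries.expand_X]
  have hPf : P = 1 - PowerSeries.C a * PowerSeries.X ^ d + PowerSeries.C q *
      PowerSeries.X ^ (2 * d) := by
    rw [hP]
    simp only [map_add, map_sub, map_mul, map_one, map_pow, Polynomial.expand_C,
      Polynomial.expand_X, Polynomial.coe_add, Polynomial.coe_sub, Polynomial.coe_mul,
      Polynomial.coe_one, Polynomial.coe_C, Polynomial.coe_X, Polynomial.coe_pow]
    rw [← pow_mul, mul_comm d 2]
  have hPS : P * PowerSeries.mk (psv a q d) = PowerSeries.C (d : ℤ) *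
      (PowerSeries.C a * PowerSeries.X ^ d - 2 * PowerSeries.C q * PowerSeries.X ^ (2 * d)) := by
    rw [hS, hPe, mul_left_comm, ← map_mul, h1]
    simp only [map_sub, map_mul, map_pow, map_ofNat, PowerSeries.expand_C, PowerSeries.expand_X]
    rw [← pow_mul, mul_comm d 2]
  have hP' : PowerSeries.X * PowerSeries.derivative ℤ P = -(P * PowerSeries.mk (psv a q d)) := by
    have hX : ∀ m : ℕ, PowerSeries.X * PowerSeries.derivative ℤ (PowerSeries.X ^ m) =
        PowerSeries.C (m : ℤ) * PowerSeries.X ^ m := by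
      intro m
      rcases m with _ | m
      · simp
      · rw [Derivation.leibniz_pow]
        have h3 : PowerSeries.derivative ℤ (PowerSeries.X : PowerSeries ℤ) = 1 := by simp
        rw [h3, Nat.add_sub_cancel, nsmul_eq_mul, smul_eq_mul, mul_one, map_natCast]
        ring
    have hC : ∀ c : ℤ, PowerSeries.derivative ℤ (PowerSeries.C c : PowerSeries ℤ) = 0 := by
      intro c
      simp
    have h2 : PowerSeries.derivative ℤ (1 : PowerSeries ℤ) = 0 := by simp
    rw [hPS, hPf]
    simp only [Derivation.leibniz, map_sub, map_add, smul_eq_mul, hC, h2]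
    have e1 := hX d
    have e2 := hX (2 * d)
    have e3 : PowerSeries.C (((2 * d : ℕ) : ℤ)) = (2 : PowerSeries ℤ) * PowerSeries.C (d : ℤ) := by
      push_cast
      rw [map_mul, map_ofNat]
    rw [e3] at e2
    linear_combination (-PowerSeries.C a) * e1 + PowerSeries.C q * e2
  unfold LogD
  have h3 : PowerSeries.derivative ℤ P * R + P * PowerSeries.derivative ℤ R = 0 := by
    have := congrArg (PowerSeries.derivative ℤ) hR
    rw [Derivation.leibniz, Derivation.map_one_eq_zero, smul_eq_mul, smul_eq_mul] at this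
    linear_combination this
  have h4 : PowerSeries.X * PowerSeries.derivative ℤ R * P = R * PowerSeries.mk (psv a q d) * P := by
    linear_combination PowerSeries.X * h3 - R * hP'
  have hP0 : P ≠ 0 := by
    intro h
    rw [h, zero_mul] at hR
    exact zero_ne_one hR
  exact mul_right_cancel₀ hP0 h4

theorem psv_zero (a q : ℤ) (d : ℕ) : psv a q d 0 = 0 := by simp [psv]

theorem psv_of_not_dvd {a q : ℤ} {d n : ℕ} (h : ¬ d ∣ n) : psv a q d n = 0 := by
  rw [psv, if_neg (fun hh => h hh.2)]

/-- an Euler product whose logarithmic derivative vanishes is `1` -/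
theorem prod_eq_one {V : Type} (a q : V → ℤ) (d : V → ℕ) (hd : ∀ v, 0 < d v)
    (hfin : ∀ n, {v | d v ≤ n}.Finite) (R : V → PowerSeries ℤ)
    (hR : ∀ v, ((Polynomial.expand ℤ (d v) (1 - C (a v) * X + C (q v) * X ^ 2) : ℤ[X]) :
      PowerSeries ℤ) * R v = 1) (L : PowerSeries ℤ) (hL : IsProd R L)
    (hsum : ∀ n, 0 < n → ∑ v ∈ (hfin n).toFinset, psv (a v) (q v) (d v) n = 0) : L = 1 := by
  classical
  have hL' := (isProd_iff R L).mp hL
  refine PowerSeries.ext fun n => ?_
  obtain ⟨s₀, hs₀⟩ := hL' n
  set s := s₀ ∪ (hfin n).toFinset with hs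
  have h1 := hs₀ s Finset.subset_union_left
  rw [← h1]
  have hlog := LogD.prod s R (fun v => psv (a v) (q v) (d v))
    fun v _ => LogD.factor (a v) (q v) (d v) (hd v) (R v) (hR v)
  have hc : ∀ m ≤ n, ∑ v ∈ s, psv (a v) (q v) (d v) m = 0 := by
    intro m hm
    rcases Nat.eq_zero_or_pos m with rfl | hmpos
    · exact Finset.sum_eq_zero fun v _ => psv_zero _ _ _
    · rw [← hsum m hmpos]
      symm
      apply Finset.sum_subset
      · intro v hv
        rw [hs, Finset.mem_union, Set.Finite.mem_toFinset]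
        rw [Set.Finite.mem_toFinset] at hv
        exact Or.inr (le_trans hv hm)
      · intro v _ hv
        apply psv_of_not_dvd
        intro hdvd
        apply hv
        rw [Set.Finite.mem_toFinset]
        exact Nat.le_of_dvd hmpos hdvd
  have h0 : PowerSeries.coeff 0 (∏ v ∈ s, R v) = 1 := by
    rw [PowerSeries.coeff_zero_eq_constantCoeff_apply, map_prod]
    refine Finset.prod_eq_one fun v _ => ?_
    have h2 := congrArg PowerSeries.constantCoeff (hR v)
    rw [map_mul, map_one, Polynomial.constantCoeff_coe, Polynomial.coeff_zero_eq_eval_zero,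
      Polynomial.expand_eval, zero_pow (hd v).ne'] at h2
    simpa using h2
  rcases Nat.eq_zero_or_pos n with rfl | hn
  · rw [h0]
    simp
  · rw [PowerSeries.coeff_one, if_neg hn.ne']
    have h3 := congrArg (PowerSeries.coeff n) hlog
    obtain ⟨m, rfl⟩ : ∃ m, n = m + 1 := ⟨n - 1, by omega⟩
    rw [PowerSeries.coeff_succ_X_mul, PowerSeries.coeff_derivative, PowerSeries.coeff_mul,
      Finset.sum_eq_zero] at h3
    · have h4 : ((m : ℤ) + 1) ≠ 0 := by omega
      exact (mul_eq_zero.mp h3).resolve_right h4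
    · intro x hx
      rw [Finset.HasAntidiagonal.mem_antidiagonal] at hx
      rw [PowerSeries.coeff_mk, hc x.2 (by omega), mul_zero]

end FFBSD
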