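import Pool.Agent.LibFFK.TD11
import Pool.Agent.LibWeilE.L2

/-!
# Points of `y² = x³ + a x² + b x + s` over finite fields (MP_93fb11_ag)
-/

set_option linter.style.haveILetI false
set_option linter.unusedSectionVars false

open Polynomial WeierstrassCurve IsLocalRing

namespace FFBSD

section node

variable {k : Type} [Field k]

theorem cub_equation (a b s x y : k) :
    (cub a b s).toAffine.Equation x y ↔ y ^ 2 = x ^ 3 + a * x ^ 2 + b * x + s := by
  rw [Affine.equation_iff]
  simp only [cub]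
  constructor
  · intro h
    linear_combination h
  · intro h
    linear_combination h

/-- the points of a nodal cubic -/
theorem node_card [Finite k] (x₀ x₁ : k) :
    Nat.card (affSol (cub (-(2 * x₀ + x₁)) (x₀ ^ 2 + 2 * x₀ * x₁) (-(x₀ ^ 2 * x₁)))) +
      Nat.card {m : k // m ^ 2 = x₀ - x₁} = Nat.card k + 1 := by
  classical
  have key : ∀ x y : k, (cub (-(2 * x₀ + x₁)) (x₀ ^ 2 + 2 * x₀ * x₁)
      (-(x₀ ^ 2 * x₁))).toAffine.Equation x y ↔ y ^ 2 = (x - x₀) ^ 2 * (x - x₁) := by
    intro x y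
    rw [cub_equation]
    constructor
    · intro h
      linear_combination h
    · intro h
      linear_combination h
  have hx0 : ∀ x y : k, y ^ 2 = (x - x₀) ^ 2 * (x - x₁) → x = x₀ → y = 0 := by
    intro x y hxy hx
    rw [hx, sub_self] at hxy
    have : y ^ 2 = 0 := by rw [hxy]; ring
    exact pow_eq_zero_iff (by norm_num) |>.mp this
  let e : affSol (cub (-(2 * x₀ + x₁)) (x₀ ^ 2 + 2 * x₀ * x₁) (-(x₀ ^ 2 * x₁))) ≃
      Option {m : k // m ^ 2 ≠ x₀ - x₁} :=
    { toFun := fun p => if hp : p.1.1 = x₀ then none else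
        some ⟨p.1.2 / (p.1.1 - x₀), by
          have h1 := (key _ _).mp p.2
          have h2 : p.1.1 - x₀ ≠ 0 := sub_ne_zero.mpr hp
          rw [div_pow, h1, mul_div_assoc, mul_comm, div_mul_cancel₀ _ (pow_ne_zero 2 h2)]
          intro h3
          exact h2 (by linear_combination h3)⟩
      invFun := fun o => match o with
        | none => ⟨(x₀, 0), (key _ _).mpr (by simp)⟩
        | some m => ⟨(m.1 ^ 2 + x₁, m.1 * (m.1 ^ 2 + x₁ - x₀)), (key _ _).mpr (by ring)⟩
      left_inv := by
        rintro ⟨⟨x, y⟩, hxy⟩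
        have h1 := (key _ _).mp hxy
        dsimp only
        split_ifs with hx
        · apply Subtype.ext
          apply Prod.ext
          · exact hx.symm
          · exact (hx0 x y h1 hx).symm
        · have h2 : x - x₀ ≠ 0 := sub_ne_zero.mpr hx
          have h3 : (y / (x - x₀)) ^ 2 = x - x₁ := by
            rw [div_pow, h1, mul_div_assoc, mul_comm, div_mul_cancel₀ _ (pow_ne_zero 2 h2)]
          apply Subtype.ext
          apply Prod.ext
          · change (y / (x - x₀)) ^ 2 + x₁ = x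
            rw [h3]
            ring
          · change y / (x - x₀) * ((y / (x - x₀)) ^ 2 + x₁ - x₀) = y
            rw [h3]
            have : x - x₁ + x₁ - x₀ = x - x₀ := by ring
            rw [this, div_mul_cancel₀ _ h2]
      right_inv := by
        rintro (_ | ⟨m, hm⟩)
        · simp
        · have h1 : m ^ 2 + x₁ ≠ x₀ := fun h2 => hm (by linear_combination h2)
          have h2 : m ^ 2 + x₁ - x₀ ≠ 0 := sub_ne_zero.mpr h1
          simp only [dif_neg h1, Option.some.injEq, Subtype.mk.injEq]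
          exact mul_div_cancel_right₀ m h2 }
  rw [Nat.card_congr e, Finite.card_option]
  have h3 : Nat.card k = Nat.card {m : k // m ^ 2 = x₀ - x₁} +
      Nat.card {m : k // m ^ 2 ≠ x₀ - x₁} := by
    rw [← Nat.card_sum]
    exact Nat.card_congr (Equiv.sumCompl (fun m : k => m ^ 2 = x₀ - x₁)).symm
  omega

open Classical in
theorem sqrt_card [Finite k] (h2 : (2 : k) ≠ 0) (u : k) (hu : u ≠ 0) :
    Nat.card {m : k // m ^ 2 = u} = if IsSquare u then 2 else 0 := by
  split_ifs with h
  · obtain ⟨r, rfl⟩ := h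
    have hr : r ≠ 0 := fun h0 => hu (by rw [h0]; ring)
    have h3 : {m : k | m ^ 2 = r * r} = {r, -r} := by
      ext m
      simp only [Set.mem_ofPred_eq, Set.mem_insert_iff, Set.mem_singleton_iff]
      rw [← pow_two, sq_eq_sq_iff_eq_or_eq_neg]
    have h4 : Nat.card {m : k // m ^ 2 = r * r} = ({m : k | m ^ 2 = r * r} : Set k).ncard := rfl
    rw [h4, h3, Set.ncard_pair]
    intro h5
    have h6 : (2 : k) * r = 0 := by linear_combination h5
    exact (mul_ne_zero h2 hr) h6
  · have : IsEmpty {m : k // m ^ 2 = u} := ⟨fun m => h ⟨m.1, m.2.symm.trans (pow_two m.1)⟩⟩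
    exact Nat.card_of_isEmpty

open Classical in
theorem node_count [Finite k] (h2 : (2 : k) ≠ 0) (x₀ x₁ : k) (h : x₀ ≠ x₁) :
    (Nat.card (affSol (cub (-(2 * x₀ + x₁)) (x₀ ^ 2 + 2 * x₀ * x₁) (-(x₀ ^ 2 * x₁)))) : ℤ) =
      Nat.card k - (if IsSquare (x₀ - x₁) then 1 else -1) := by
  have h1 := node_card x₀ x₁
  rw [sqrt_card h2 _ (sub_ne_zero.mpr h)] at h1
  split_ifs at h1 ⊢ <;> omega

theorem node_tanPol (x₀ x₁ : k) (x : k) :
    (tanPol (cub (-(2 * x₀ + x₁)) (x₀ ^ 2 + 2 * x₀ * x₁) (-(x₀ ^ 2 * x₁)))).eval x =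
      16 * (x₀ - x₁) ^ 2 * (x ^ 2 - (x₀ - x₁)) := by
  simp only [tanPol, cub, eval_sub, eval_add, eval_mul, eval_C, eval_pow, eval_X, c₄, b₂, b₄, b₆]
  ring

/-- the squares in an extension of odd degree -/
theorem isSquare_odd {k' : Type} [Field k'] [Algebra k k'] [FiniteDimensional k k']
    (ho : Odd (Module.finrank k k')) (u : k) (h : IsSquare (algebraMap k k' u)) : IsSquare u := by
  obtain ⟨r, hr⟩ := h
  have hint : IsIntegral k r := IsIntegral.of_finite k r
  have h1 : minpoly k r ∣ X ^ 2 - C u := by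
    apply minpoly.dvd
    simp only [map_sub, map_pow, aeval_X, aeval_C]
    rw [hr]
    ring
  have h2 : (minpoly k r).natDegree ≤ 2 := by
    have h3 := natDegree_le_of_dvd h1 (X_pow_sub_C_ne_zero (by norm_num) u)
    rwa [natDegree_X_pow_sub_C] at h3
  have h3 : (minpoly k r).natDegree ∣ Module.finrank k k' := minpoly.degree_dvd hint
  have h4 : 0 < (minpoly k r).natDegree := minpoly.natDegree_pos hint
  have h5 : (minpoly k r).natDegree = 1 := by
    have h6 : (minpoly k r).natDegree ≠ 2 := by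
      intro h7
      rw [h7] at h3
      exact (Nat.not_even_iff_odd.mpr ho) (even_iff_two_dvd.mpr h3)
    omega
  obtain ⟨s, hs⟩ := (minpoly.natDegree_eq_one_iff).mp h5
  refine ⟨s, ?_⟩
  apply (algebraMap k k').injective
  rw [hr, map_mul, hs]

end node

end FFBSD
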