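import Pool.Agent.LibST64.B2

/-!
# The local polynomials of `y² = x³ + a x² + b x + s` (MP_93fb11_ag)
-/

set_option linter.style.haveILetI false
set_option linter.unusedSectionVars false

open Polynomial WeierstrassCurve IsLocalRing

namespace FFBSD

variable {F : Type} [Field F] [Finite F]

theorem ps_one_zero (e : ℤ) (f : ℕ) (hf : 0 < f) : WeilE.ps e 0 f = e ^ f := by
  induction f using Nat.strong_induction_on with
  | _ f ih =>
    rcases f with _ | _ | f
    · omega
    · simp [WeilE.ps]
    · rw [WeilE.ps, ih (f + 1) (by omega) (by omega)]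
      ring

theorem seed_local (a b : F) (h2 : (2 : F) ≠ 0) (hab : a ^ 2 ≠ 3 * b)
    (v : Place F (RatFunc F)) (hs : (RatFunc.X : RatFunc F) ∈ v.O) :
    ∃ av qv : ℤ, (seedE a b).localPolynomial v.O = 1 - C av * X + C qv * X ^ 2 ∧
      ∀ (K : Type) [Field K] [Algebra v.κ K] [Finite K],
        (Nat.card (affSol ((cub (algebraMap F v.κ a) (algebraMap F v.κ b)
          (residue v.O ⟨RatFunc.X, hs⟩)).map (algebraMap v.κ K))) : ℤ) =
          Nat.card K - WeilE.ps av qv (Module.finrank v.κ K) := by
  classical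
  haveI : Finite v.κ := finite_kappa v
  set I := seedI a b v hs with hI
  set W₀ := cub (algebraMap F v.κ a) (algebraMap F v.κ b) (residue v.O ⟨RatFunc.X, hs⟩) with hW₀
  have hIW : I.map (residue v.O) = W₀ := by
    rw [hI, seedI, cub_map]
    rfl
  have hmap := seedI_map a b v hs
  have h2κ : (2 : v.κ) ≠ 0 := by
    have : (2 : v.κ) = algebraMap F v.κ 2 := (map_ofNat _ _).symm
    rw [this]
    exact (_root_.map_ne_zero _).mpr h2
  by_cases hu : IsUnit I.Δ
  · -- good reduction
    have hg := seed_good a b v hs hu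
    obtain ⟨D, hD⟩ := model_cmp (R := v.O) (seedE a b) 1 I hmap (Or.inl hu)
    have hΔ : W₀.Δ ≠ 0 := by
      rw [← hIW, map_Δ, residue_ne_zero_iff_isUnit]
      exact hu
    have hred : ((seedE a b).minimal v.O).reduction v.O = (D.map (residue v.O)) • W₀ := by
      rw [reduction, ← hD, ← hIW]
      exact (map_variableChange _ _ _).symm
    refine ⟨_, _, by rw [localPolynomial, if_pos hg], fun K _ _ _ => ?_⟩
    have h4 := card_point_variableChange W₀ hΔ (D.map (residue v.O))
    have h5 := WeilE.weil W₀ hΔ K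
    have hΔK : (W₀.map (algebraMap v.κ K)).Δ ≠ 0 := by
      rw [map_Δ]
      exact (_root_.map_ne_zero _).mpr hΔ
    have h6 := card_point_eq (W₀.map (algebraMap v.κ K)) hΔK
    have h7 : Nat.card K = Nat.card v.κ ^ Module.finrank v.κ K :=
      Module.natCard_eq_pow_finrank (K := v.κ) (V := K)
    rw [h6] at h5
    rw [hred, h7]
    push_cast at h5 ⊢
    have h8 : (Nat.card ((D.map (residue v.O)) • W₀).toAffine.Point : ℤ) =
      Nat.card W₀.toAffine.Point := by exact_mod_cast h4
    rw [h8]
    have h9 : (Nat.card (ResidueField v.O) : ℤ) = Nat.card v.κ := rfl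
    rw [h9]
    linarith
  · -- multiplicative reduction
    have hc := seedI_c₄ a b v hs h2 hab
    have hΔ0 := seedI_Δ0 a b v hs h2 hab
    have hm := seed_mult a b v hs h2 hab hu
    obtain ⟨D, hD⟩ := model_cmp (R := v.O) (seedE a b) 1 I hmap (Or.inr ⟨hc, hu, hΔ0⟩)
    have hred : ((seedE a b).minimal v.O).reduction v.O = (D.map (residue v.O)) • W₀ := by
      rw [reduction, ← hD, ← hIW]
      exact (map_variableChange _ _ _).symm
    have hc₀ : W₀.c₄ ≠ 0 := by
      rw [← hIW, map_c₄, residue_ne_zero_iff_isUnit]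
      exact hc
    have hΔ₀ : W₀.Δ = 0 := by
      rw [← hIW, map_Δ]
      by_contra h
      exact hu ((residue_ne_zero_iff_isUnit _).mp h)
    have h16 : (16 : v.κ) ≠ 0 := by
      have : (16 : v.κ) = 2 ^ 4 := by norm_num
      rw [this]
      exact pow_ne_zero _ h2κ
    obtain ⟨x₀, x₁, e1, e2, e3⟩ := cubic_roots (algebraMap F v.κ a) (algebraMap F v.κ b)
      (residue v.O ⟨RatFunc.X, hs⟩) h2κ (by
        rw [hW₀, cub_c₄] at hc₀
        exact right_ne_zero_of_mul hc₀) (by
        rw [hW₀, cub_Δ] at hΔ₀
        exact (mul_eq_zero.mp hΔ₀).resolve_left h16)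
    have hne : x₀ ≠ x₁ := by
      rintro rfl
      apply hc₀
      rw [hW₀, cub_c₄, e1, e2]
      ring
    have hW₁ : W₀ = cub (-(2 * x₀ + x₁)) (x₀ ^ 2 + 2 * x₀ * x₁) (-(x₀ ^ 2 * x₁)) := by
      rw [hW₀, e1, e2, e3]
    -- split iff `x₀ - x₁` is a square
    have hsplit : ((seedE a b).minimal v.O).HasSplitMultiplicativeReduction v.O ↔
        IsSquare (x₀ - x₁) := by
      have h3 : (tanPol W₀).Splits ↔ IsSquare (x₀ - x₁) := by
        rw [tanPol_splits _ hc₀]
        have h4 : ∀ x, (tanPol W₀).eval x = 0 ↔ x ^ 2 = x₀ - x₁ := by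
          intro x
          rw [hW₁, node_tanPol]
          have h5 : 16 * (x₀ - x₁) ^ 2 ≠ 0 := mul_ne_zero h16
            (pow_ne_zero 2 (sub_ne_zero.mpr hne))
          rw [mul_eq_zero, or_iff_right h5, sub_eq_zero]
        constructor
        · rintro ⟨x, hx⟩
          exact ⟨x, by rw [← (h4 x).mp hx, pow_two]⟩
        · rintro ⟨x, hx⟩
          exact ⟨x, (h4 x).mpr (by rw [hx, pow_two])⟩
      rw [← h3, ← tanPol_splits_smul W₀ hc₀ (D.map (residue v.O)), ← hred, reduction, tanPol_map]
      exact ⟨fun h => h.splitMultiplicativeReduction, fun h =>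
        { hm with splitMultiplicativeReduction := h }⟩
    have hcount : ∀ (K : Type) [Field K] [Algebra v.κ K] [Finite K],
        (Nat.card (affSol (W₀.map (algebraMap v.κ K))) : ℤ) = Nat.card K -
          (if IsSquare (algebraMap v.κ K (x₀ - x₁)) then 1 else -1) := by
      intro K _ _ _
      have h2K : (2 : K) ≠ 0 := by
        have : (2 : K) = algebraMap v.κ K 2 := (map_ofNat _ _).symm
        rw [this]
        exact (_root_.map_ne_zero _).mpr h2κ
      have h3 := node_count h2K (algebraMap v.κ K x₀) (algebraMap v.κ K x₁)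
        (fun h => hne ((algebraMap v.κ K).injective h))
      rw [hW₁, cub_map]
      simp only [map_neg, map_add, map_mul, map_pow, map_ofNat, map_sub] at h3 ⊢
      exact h3
    have hf : ∀ (K : Type) [Field K] [Algebra v.κ K] [Finite K], 0 < Module.finrank v.κ K := by
      intro K _ _ _
      haveI : FiniteDimensional v.κ K := Module.Finite.of_finite
      exact Module.finrank_pos
    by_cases hsq : IsSquare (x₀ - x₁)
    · refine ⟨1, 0, ?_, fun K _ _ _ => ?_⟩
      · rw [localPolynomial, if_neg hm.not_hasGoodReduction, if_pos (hsplit.mpr hsq)]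
        simp
      · rw [hcount K, ps_one_zero 1 _ (hf K), one_pow, if_pos (hsq.map _)]
    · refine ⟨-1, 0, ?_, fun K _ _ _ => ?_⟩
      · rw [localPolynomial, if_neg hm.not_hasGoodReduction, if_neg fun h => hsq (hsplit.mp h),
          if_pos hm]
        simp
      · haveI : FiniteDimensional v.κ K := Module.Finite.of_finite
        rw [hcount K, ps_one_zero (-1) _ (hf K)]
        rcases Nat.even_or_odd (Module.finrank v.κ K) with he | ho
        · rw [he.neg_one_pow, if_pos]
          have h5 := tanPol_even (k' := K) W₀ hc₀ he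
          have hcK : (W₀.map (algebraMap v.κ K)).c₄ ≠ 0 := by
            rw [map_c₄]
            exact (_root_.map_ne_zero _).mpr hc₀
          obtain ⟨x, hx⟩ := (tanPol_splits _ hcK).mp h5
          have hWK : W₀.map (algebraMap v.κ K) = cub (-(2 * algebraMap v.κ K x₀ + algebraMap v.κ K x₁))
              ((algebraMap v.κ K x₀) ^ 2 + 2 * algebraMap v.κ K x₀ * algebraMap v.κ K x₁)
              (-((algebraMap v.κ K x₀) ^ 2 * algebraMap v.κ K x₁)) := by
            rw [hW₁, cub_map]
            simp only [map_neg, map_add, map_mul, map_pow, map_ofNat]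
          rw [hWK, node_tanPol] at hx
          have h6 : (16 : K) * (algebraMap v.κ K x₀ - algebraMap v.κ K x₁) ^ 2 ≠ 0 := by
            rw [← map_sub, ← map_pow, ← map_ofNat (algebraMap v.κ K) 16, ← map_mul,
              _root_.map_ne_zero]
            exact mul_ne_zero h16 (pow_ne_zero 2 (sub_ne_zero.mpr hne))
          have h7 := (mul_eq_zero.mp hx).resolve_left h6
          exact ⟨x, by rw [map_sub, ← pow_two]; linear_combination -h7⟩
        · rw [ho.neg_one_pow, if_neg fun h => hsq (isSquare_odd ho _ h)]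

end FFBSD
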