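import Pool.Agent.LibST64.B1
import Pool.Agent.LibST64.B3

/-!
# The `L`-function of `y² = x³ + a x² + b x + s` is `1` (MP_93fb11_ag)
-/

set_option linter.style.haveILetI false
set_option linter.unusedSectionVars false

open Polynomial WeierstrassCurve IsLocalRing
open scoped PowerSeries.WithPiTopology

namespace FFBSD

section count

variable {F : Type} [Field F] [Finite F]

/-- the number of roots of an irreducible polynomial in an extension -/
theorem root_count (g : F[X]) (hg : Irreducible g) (K : Type) [Field K] [Finite K] [Algebra F K] :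
    Nat.card {x : K // aeval x g = 0} =
      if g.natDegree ∣ Module.finrank F K then g.natDegree else 0 := by
  classical
  have hcard : Nat.card K = Nat.card F ^ Module.finrank F K :=
    Module.natCard_eq_pow_finrank (K := F) (V := K)
  split_ifs with h
  · have hdvd : g ∣ X ^ Nat.card F ^ Module.finrank F K - X :=
      (hg.natDegree_dvd_iff_dvd_X_pow_card_pow_sub_X).1 h
    have hspl : (X ^ Nat.card K - X : K[X]).Splits := Polynomial.splits_X_pow_nat_card_sub_X
    have hne : (X ^ Nat.card K - X : K[X]) ≠ 0 :=
      FiniteField.X_pow_card_sub_X_ne_zero K Finite.one_lt_card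
    have hmap : g.map (algebraMap F K) ∣ X ^ Nat.card K - X := by
      have := Polynomial.map_dvd (algebraMap F K) hdvd
      rw [Polynomial.map_sub, Polynomial.map_pow, Polynomial.map_X, ← hcard] at this
      exact this
    have hs : (g.map (algebraMap F K)).Splits := hspl.of_dvd hne hmap
    have hsep : g.Separable := PerfectField.separable_of_irreducible hg
    have := Polynomial.card_rootSet_eq_natDegree hsep hs
    rw [← this, ← Nat.card_eq_fintype_card]
    refine Nat.card_congr (Equiv.subtypeEquivRight fun x => ?_)
    rw [Polynomial.mem_rootSet]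
    exact ⟨fun hx => ⟨hg.ne_zero, hx⟩, fun hx => hx.2⟩
  · have : IsEmpty {x : K // aeval x g = 0} := by
      refine ⟨fun x => h ?_⟩
      obtain ⟨x, hx⟩ := x
      have h1 : (minpoly F x).natDegree ∣ Module.finrank F K :=
        minpoly.degree_dvd (Algebra.IsIntegral.isIntegral x)
      have h2 : g.natDegree = (minpoly F x).natDegree := by
        conv_lhs => rw [minpoly.Irreducible.eq_minpoly hg hx]
        exact natDegree_C_mul (leadingCoeff_ne_zero.2 hg.ne_zero)
      rw [h2]
      exact h1
    exact Nat.card_of_isEmpty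

/-- the residue field of a finite place of `F(s)` maps to every extension with a root -/
theorem place_hom (v : Place F (RatFunc F)) (hs : (RatFunc.X : RatFunc F) ∈ v.O) (π : F[X])
    (hirr : Irreducible π) (hdeg : v.deg = π.natDegree)
    (hz : v.IsZero (algebraMap F[X] (RatFunc F) π)) {K : Type} [Field K] [Algebra F K]
    (θ : K) (hθ : aeval θ π = 0) :
    ∃ φ : v.κ →ₐ[F] K, φ (residue v.O ⟨RatFunc.X, hs⟩) = θ := by
  set x : v.κ := residue v.O ⟨RatFunc.X, hs⟩ with hx
  have hx0 : aeval x π = 0 := by
    have h1 : aeval x π = residue v.O (aeval (⟨RatFunc.X, hs⟩ : v.O) π) := by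
      rw [aeval_def, aeval_def, hom_eval₂]
      rfl
    rw [h1, residue_eq_zero_iff]
    refine (ValuationSubring.valuation_lt_one_iff v.O _).mpr ?_
    have h2 : ((aeval (⟨RatFunc.X, hs⟩ : v.O) π : v.O) : RatFunc F) =
        algebraMap F[X] (RatFunc F) π := by
      have h3 : ((aeval (⟨RatFunc.X, hs⟩ : v.O) π : v.O) : RatFunc F) =
          aeval (RatFunc.X : RatFunc F) π := by
        rw [aeval_def, aeval_def]
        change v.O.subtype _ = _
        rw [hom_eval₂]
        rfl
      rw [h3]
      conv_rhs => rw [← Polynomial.aeval_X_left_apply π]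
      rw [← RatFunc.algebraMap_X, aeval_algebraMap_apply, Polynomial.aeval_X_left_apply]
    rw [h2]
    exact hz
  haveI : Fact (Irreducible π) := ⟨hirr⟩
  let ψ : AdjoinRoot π →ₐ[F] v.κ := AdjoinRoot.liftAlgHom π (Algebra.ofId F v.κ) x hx0
  have hψx : ψ (AdjoinRoot.root π) = x := AdjoinRoot.liftAlgHom_root _ _ _ _
  have hbij : Function.Bijective ψ := by
    have hinj : Function.Injective ψ := ψ.injective
    haveI : FiniteDimensional F (AdjoinRoot π) := (AdjoinRoot.powerBasis hirr.ne_zero).finite
    refine ⟨hinj, ?_⟩
    have h1 : Module.finrank F (AdjoinRoot π) = Module.finrank F v.κ := by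
      rw [(AdjoinRoot.powerBasis hirr.ne_zero).finrank, AdjoinRoot.powerBasis_dim]
      exact hdeg.symm
    exact (LinearMap.injective_iff_surjective_of_finrank_eq_finrank (f := ψ.toLinearMap) h1).mp hinj
  let e : AdjoinRoot π ≃ₐ[F] v.κ := AlgEquiv.ofBijective ψ hbij
  let χ : AdjoinRoot π →ₐ[F] K := AdjoinRoot.liftAlgHom π (Algebra.ofId F K) θ hθ
  refine ⟨χ.comp e.symm.toAlgHom, ?_⟩
  have h1 : e.symm x = AdjoinRoot.root π := by
    rw [AlgEquiv.symm_apply_eq]
    exact hψx.symm
  change χ (e.symm x) = θ
  rw [h1]
  exact AdjoinRoot.liftAlgHom_root _ _ _ _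

end count

section total

/-- the total number of points of all the curves `y² = x³ + a x² + b x + θ` -/
theorem total_points {K : Type} [Field K] [Fintype K] (a b : K) :
    ∑ θ : K, (Nat.card (affSol (cub a b θ)) : ℤ) = (Nat.card K : ℤ) * Nat.card K := by
  have h1 : ∑ θ : K, Nat.card (affSol (cub a b θ)) = Nat.card K * Nat.card K := by
    rw [← Nat.card_sigma, ← Nat.card_prod]
    refine Nat.card_congr
      { toFun := fun p => p.2.1
        invFun := fun p => ⟨p.2 ^ 2 - p.1 ^ 3 - a * p.1 ^ 2 - b * p.1, ⟨p, by
          change (cub a b _).toAffine.Equation p.1 p.2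
          rw [cub_equation]
          ring⟩⟩
        left_inv := ?_
        right_inv := fun p => rfl }
    rintro ⟨θ, ⟨⟨x, y⟩, h⟩⟩
    have h2 := (cub_equation a b θ x y).mp h
    have h3 : y ^ 2 - x ^ 3 - a * x ^ 2 - b * x = θ := by linear_combination h2
    subst h3
    rfl
  exact_mod_cast h1

end total

section main

variable {F : Type} [Field F] [Finite F]

/-- an extension of degree `n` -/
theorem exists_ext (F : Type) [Field F] [Finite F] (n : ℕ) (hn : 0 < n) :
    ∃ (K : Type) (_ : Field K) (_ : Algebra F K), Finite K ∧ Module.finrank F K = n := by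
  obtain ⟨p, hp⟩ := CharP.exists F
  haveI : Fact p.Prime := ⟨CharP.char_is_prime F p⟩
  haveI : NeZero n := ⟨hn.ne'⟩
  haveI : Finite (FiniteField.Extension F p n) := Module.finite_of_finite F
  exact ⟨FiniteField.Extension F p n, inferInstance, inferInstance, inferInstance,
    FiniteField.finrank_extension F p n⟩

/-- **`L(E/F(s), T) = 1`** -/
theorem seed_L_one (a b : F) (h2 : (2 : F) ≠ 0) (hab : a ^ 2 ≠ 3 * b) :
    IsLFunction F (seedE a b) (1 : PowerSeries ℤ) := by
  classical
  have hnice : QNice F (RatFunc F) := QNice.ratFunc F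
  obtain ⟨L, hL⟩ := lfun_exists hnice (seedE a b)
  obtain ⟨e, e0, e1, e2, e3, -, e5⟩ := placeEquiv F
  -- the local data
  have hloc : ∀ v : Place F (RatFunc F), ∃ av qv : ℤ,
      (seedE a b).localPolynomial v.O = 1 - C av * X + C qv * X ^ 2 ∧
      ((RatFunc.X : RatFunc F) ∉ v.O → av = 0 ∧ qv = 0) ∧
      ∀ hs : (RatFunc.X : RatFunc F) ∈ v.O, ∀ (K : Type) [Field K] [Algebra v.κ K] [Finite K],
        (Nat.card (affSol ((cub (algebraMap F v.κ a) (algebraMap F v.κ b)
          (residue v.O ⟨RatFunc.X, hs⟩)).map (algebraMap v.κ K))) : ℤ) =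
          Nat.card K - WeilE.ps av qv (Module.finrank v.κ K) := by
    intro v
    by_cases hs : (RatFunc.X : RatFunc F) ∈ v.O
    · obtain ⟨av, qv, h1, h3⟩ := seed_local a b h2 hab v hs
      exact ⟨av, qv, h1, fun h => absurd hs h, fun _ => h3⟩
    · refine ⟨0, 0, ?_, fun _ => ⟨rfl, rfl⟩, fun h => absurd h hs⟩
      have h1 := seed_inf a b v h2 hab hs
      rw [SemiAt, not_or] at h1
      have h3 : ¬ ((seedE a b).minimal v.O).HasSplitMultiplicativeReduction v.O := fun hs =>
        h1.2 hs.toHasMultiplicativeReduction
      rw [localPolynomial, if_neg h1.1, if_neg h3, if_neg h1.2]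
      simp
  choose av qv hpol hinf hcnt using hloc
  have hdpos : ∀ v : Place F (RatFunc F), 0 < v.deg := fun v =>
    Nat.pos_of_ne_zero (place_deg_ne v)
  have hfin : ∀ n, {v : Place F (RatFunc F) | v.deg ≤ n}.Finite := fun n => hnice.degs_le n
  have key : L = 1 := by
    refine prod_eq_one av qv (fun v : Place F (RatFunc F) => v.deg) hdpos hfin
      (fun v => PowerSeries.invOfUnit ((Polynomial.expand ℤ v.deg
        ((seedE a b).localPolynomial v.O) : ℤ[X]) : PowerSeries ℤ) 1) ?_ L (isProd_int.mpr hL) ?_
    · intro v
      rw [← hpol v]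
      apply ps_inv_pol_mul
      rw [Polynomial.coeff_zero_eq_eval_zero, Polynomial.expand_eval, zero_pow (place_deg_ne v),
        ← Polynomial.coeff_zero_eq_eval_zero, lp_coeff_zero]
    · intro n hn
      obtain ⟨K, _, _, hKfin, hKn⟩ := exists_ext F n hn
      haveI := Fintype.ofFinite K
      haveI : FiniteDimensional F K := Module.Finite.of_finite
      -- the place of an element
      have hint : ∀ θ : K, IsIntegral F θ := fun θ => IsIntegral.of_finite F θ
      let pl : K → Place F (RatFunc F) := fun θ =>
        e (some ⟨minpoly F θ, minpoly.monic (hint θ), minpoly.irreducible (hint θ)⟩)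
      have hpldeg : ∀ θ, (pl θ).deg = (minpoly F θ).natDegree := fun θ => e1 _
      have hplX : ∀ θ, (RatFunc.X : RatFunc F) ∈ (pl θ).O := by
        intro θ
        have h1 := e3 ⟨minpoly F θ, minpoly.monic (hint θ), minpoly.irreducible (hint θ)⟩ X
        rw [Place.IsPole, not_lt, ValuationSubring.valuation_le_one_iff, RatFunc.algebraMap_X] at h1
        exact h1
      -- the local counts
      have h4 : ∀ θ : K, (Nat.card (affSol (cub (algebraMap F K a) (algebraMap F K b) θ)) : ℤ) =
          Nat.card K - WeilE.ps (av (pl θ)) (qv (pl θ)) (n / (pl θ).deg) := by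
        intro θ
        have hz : (pl θ).IsZero (algebraMap F[X] (RatFunc F) (minpoly F θ)) :=
          (e2 _ _).mpr dvd_rfl
        obtain ⟨φ, hφ⟩ := place_hom (pl θ) (hplX θ) (minpoly F θ)
          (minpoly.irreducible (hint θ)) (hpldeg θ) hz θ (minpoly.aeval F θ)
        letI : Algebra (pl θ).κ K := φ.toRingHom.toAlgebra
        haveI : IsScalarTower F (pl θ).κ K := IsScalarTower.of_algebraMap_eq fun x =>
          (φ.commutes x).symm
        haveI : FiniteDimensional (pl θ).κ K := Module.Finite.of_restrictScalars_finite F _ _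
        have h5 := hcnt (pl θ) (hplX θ) K
        have h6 : Module.finrank (pl θ).κ K = n / (pl θ).deg := by
          have h7 := Module.finrank_mul_finrank F (pl θ).κ K
          rw [hKn] at h7
          rw [← h7]
          exact (Nat.mul_div_cancel_left _ (hdpos (pl θ))).symm
        rw [h6] at h5
        rw [← h5, cub_map]
        have h8 : algebraMap (pl θ).κ K (algebraMap F (pl θ).κ a) = algebraMap F K a :=
          φ.commutes a
        have h9 : algebraMap (pl θ).κ K (algebraMap F (pl θ).κ b) = algebraMap F K b :=
          φ.commutes b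
        have h10 : algebraMap (pl θ).κ K (residue (pl θ).O ⟨RatFunc.X, hplX θ⟩) = θ := hφ
        rw [h8, h9, h10]
      -- the total number of points
      have h5 : ∑ θ : K, (Nat.card (affSol (cub (algebraMap F K a) (algebraMap F K b) θ)) : ℤ) =
          (Nat.card K : ℤ) * Nat.card K := total_points _ _
      have h6 : ∑ θ : K, WeilE.ps (av (pl θ)) (qv (pl θ)) (n / (pl θ).deg) = 0 := by
        have h7 : ∑ θ : K, ((Nat.card K : ℤ) - WeilE.ps (av (pl θ)) (qv (pl θ))
            (n / (pl θ).deg)) = (Nat.card K : ℤ) * Nat.card K := by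
          rw [← h5]
          exact Finset.sum_congr rfl fun θ _ => (h4 θ).symm
        rw [Finset.sum_sub_distrib, Finset.sum_const, Finset.card_univ, nsmul_eq_mul,
          ← Nat.card_eq_fintype_card] at h7
        linarith
      -- grouping
      rw [← h6]
      have h7 : ∀ θ : K, pl θ ∈ (hfin n).toFinset := by
        intro θ
        rw [Set.Finite.mem_toFinset]
        change (pl θ).deg ≤ n
        rw [hpldeg]
        refine Nat.le_of_dvd hn ?_
        rw [← hKn]
        exact minpoly.degree_dvd (hint θ)
      rw [← Finset.sum_fiberwise_of_maps_to (g := pl) (t := (hfin n).toFinset)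
        (fun θ _ => h7 θ)]
      refine Finset.sum_congr rfl fun v _ => ?_
      have h8 : ∑ θ : K with pl θ = v, WeilE.ps (av (pl θ)) (qv (pl θ)) (n / (pl θ).deg) =
          (Finset.univ.filter fun θ : K => pl θ = v).card * WeilE.ps (av v) (qv v) (n / v.deg) := by
        rw [Finset.sum_congr rfl (g := fun _ => WeilE.ps (av v) (qv v) (n / v.deg)),
          Finset.sum_const, nsmul_eq_mul]
        intro θ hθ
        rw [(Finset.mem_filter.mp hθ).2]
      rw [h8, psv]
      obtain ⟨o, rfl⟩ := e.surjective v
      rcases o with _ | ⟨π, hm, hirr⟩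
      · -- the infinite place
        have h9 : (RatFunc.X : RatFunc F) ∉ (e none).O := by
          have h10 := e5 X (by simp)
          rw [Place.IsPole, RatFunc.algebraMap_X] at h10
          intro h11
          rw [← ValuationSubring.valuation_le_one_iff] at h11
          exact absurd h10 (not_lt.mpr h11)
        obtain ⟨ha, hq⟩ := hinf _ h9
        have h11 : 0 < n / (e none).deg := by
          rw [e0, Nat.div_one]
          exact hn
        rw [ha, hq, ps_one_zero 0 _ h11, zero_pow h11.ne']
        simp
      · have h9 : (Finset.univ.filter fun θ : K => pl θ = e (some ⟨π, hm, hirr⟩)).card =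
            Nat.card {θ : K // aeval θ π = 0} := by
          rw [Nat.card_eq_fintype_card, Fintype.card_subtype]
          congr 1
          ext θ
          simp only [Finset.mem_filter, Finset.mem_univ, true_and, pl, e.apply_eq_iff_eq,
            Option.some.injEq, Subtype.mk.injEq]
          constructor
          · intro h
            rw [← h]
            exact minpoly.aeval F θ
          · intro h
            exact (minpoly.eq_of_irreducible_of_monic hirr h hm).symm
        rw [h9, root_count π hirr K, hKn, e1]
        by_cases hdvd : π.natDegree ∣ n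
        · rw [if_pos ⟨hn.ne', hdvd⟩, if_pos hdvd]
        · rw [if_neg (fun h => hdvd h.2), if_neg hdvd]
          simp
  rw [← key]
  exact hL

end main

end FFBSD
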