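import Pool.Agent.LibST64.A6

/-!
# Places at which the ramified Euler factor is squarefree modulo `l` (MP_93fb11_ag)
-/

set_option linter.style.haveILetI false
set_option linter.unusedSectionVars false

open Polynomial WeierstrassCurve IsLocalRing
open scoped PowerSeries.WithPiTopology

namespace FFBSD

theorem quad_separable {k : Type} [Field k] (a q : k) (h : a ^ 2 - 4 * q ≠ 0) :
    (1 + C a * X + C q * X ^ 2 : k[X]).Separable := by
  have hd : derivative (1 + C a * X + C q * X ^ 2 : k[X]) = C a + 2 * C q * X := by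
    have h2 : (2 : k[X]) = C 2 := (map_ofNat C 2).symm
    rw [h2]
    simp only [map_add, derivative_one, derivative_mul, derivative_C, derivative_X,
      derivative_X_pow, Nat.cast_ofNat, zero_mul, zero_add, mul_one, Nat.reduceSub, pow_one]
    ring
  rw [Polynomial.Separable, hd]
  refine ⟨C ((a ^ 2 - 4 * q)⁻¹) * (-(4 * C q)), C ((a ^ 2 - 4 * q)⁻¹) * (C a + 2 * C q * X), ?_⟩
  have e1 : C ((a ^ 2 - 4 * q)⁻¹) * (C a ^ 2 - 4 * C q) = 1 := by
    have h4 : (4 : k[X]) = C 4 := (map_ofNat C 4).symm
    rw [h4, ← C_pow, ← C_mul, ← C_sub, ← C_mul, inv_mul_cancel₀ h, C_1]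
  linear_combination e1

theorem expand_separable {k : Type} [Field k] (p : k[X]) (hp : p.Separable) (h0 : p.coeff 0 ≠ 0)
    (d : ℕ) (hd : (d : k) ≠ 0) : (expand k d p).Separable := by
  have hdpos : 0 < d := Nat.pos_of_ne_zero fun h => hd (by rw [h, Nat.cast_zero])
  rw [Polynomial.Separable, derivative_expand]
  have h1 : IsCoprime (expand k d p) (expand k d (derivative p)) := by
    obtain ⟨u, w, huw⟩ := hp
    refine ⟨expand k d u, expand k d w, ?_⟩
    rw [← map_mul, ← map_mul, ← map_add, huw, map_one]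
  refine h1.mul_right ?_
  have h2 : IsCoprime (expand k d p) ((d : k[X])) := by
    have : ((d : k[X])) = C (d : k) := (map_natCast C d).symm
    rw [this]
    exact ⟨0, C ((d : k)⁻¹), by rw [zero_mul, zero_add, ← C_mul, inv_mul_cancel₀ hd, C_1]⟩
  refine h2.mul_right (IsCoprime.pow_right ?_)
  -- coprime to X
  have h3 : (expand k d p).coeff 0 ≠ 0 := by
    rw [coeff_zero_eq_eval_zero, expand_eval, zero_pow hdpos.ne', ← coeff_zero_eq_eval_zero]
    exact h0
  refine ⟨C ((expand k d p).coeff 0)⁻¹, -(C ((expand k d p).coeff 0)⁻¹ * (expand k d p).divX), ?_⟩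
  have h4 := divX_mul_X_add (expand k d p)
  have h5 : C ((expand k d p).coeff 0)⁻¹ * C ((expand k d p).coeff 0) = (1 : k[X]) := by
    rw [← C_mul, inv_mul_cancel₀ h3, C_1]
  linear_combination h5 - C ((expand k d p).coeff 0)⁻¹ * h4

variable {F K : Type} [Field F] [Field K] [Algebra F K]

theorem lp_quad (E : WeierstrassCurve K) (v : Place F K) :
    E.localPolynomial v.O = 1 + C ((E.localPolynomial v.O).coeff 1) * X +
      C ((E.localPolynomial v.O).coeff 2) * X ^ 2 := by
  have h1 : (E.localPolynomial v.O).natDegree ≤ 2 := by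
    rw [localPolynomial]
    split_ifs <;> compute_degree <;> norm_num
  ext n
  rcases n with _ | _ | _ | n
  · rw [lp_coeff_zero, coeff_add, coeff_add, coeff_C_mul, coeff_C_mul, coeff_X_pow, coeff_one,
      coeff_X]
    norm_num
  · rw [coeff_add, coeff_add, coeff_C_mul, coeff_C_mul, coeff_X_pow, coeff_one,
      coeff_X]
    norm_num
  · rw [coeff_add, coeff_add, coeff_C_mul, coeff_C_mul, coeff_X_pow, coeff_one,
      coeff_X]
    norm_num
  · rw [coeff_eq_zero_of_natDegree_lt (by omega), coeff_add, coeff_add, coeff_C_mul, coeff_C_mul,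
      coeff_X_pow, coeff_one, coeff_X, if_neg (by omega), if_neg (by omega), if_neg (by omega)]
    ring

/-- the discriminant `a² - 4 q_v` of the local polynomial of `E` at `v` -/
noncomputable def lpDisc (E : WeierstrassCurve K) (v : Place F K) : ℤ :=
  ((E.localPolynomial v.O).coeff 1) ^ 2 - 4 * (E.localPolynomial v.O).coeff 2

theorem locPol_separable {l : ℕ} (hl : l.Prime) (E : WeierstrassCurve K) (v : Place F K)
    (hd : ¬ l ∣ v.deg) (hdisc : ¬ (l : ℤ) ∣ lpDisc E v) : (redl l (locPol E v)).Separable := by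
  haveI := Fact.mk hl
  rw [locPol, redl_expand]
  apply expand_separable
  · have h1 : redl l (E.localPolynomial v.O) =
        1 + C (((E.localPolynomial v.O).coeff 1 : ℤ) : ZMod l) * X +
          C (((E.localPolynomial v.O).coeff 2 : ℤ) : ZMod l) * X ^ 2 := by
      conv_lhs => rw [lp_quad E v]
      rw [redl]
      simp
    rw [h1]
    apply quad_separable
    intro h
    apply hdisc
    rw [← ZMod.intCast_zmod_eq_zero_iff_dvd, lpDisc]
    push_cast
    exact h
  · rw [redl, coeff_map, lp_coeff_zero, map_one]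
    exact one_ne_zero
  · rw [Ne, ZMod.natCast_eq_zero_iff]
    exact hd

theorem multLe_of_separable {l : ℕ} (Q : ℤ[X]) (h : (redl l Q).Separable) [Fact l.Prime] :
    MultLe l 1 Q := by
  intro f hf hdvd
  have h1 := h.squarefree f (by rwa [← pow_two])
  exact hf.not_isUnit h1

theorem locPol_not_semi (E : WeierstrassCurve K) (v : Place F K) (h : ¬ SemiAt E v) :
    locPol E v = 1 := by
  classical
  rw [SemiAt, not_or] at h
  have hs : ¬ (E.minimal v.O).HasSplitMultiplicativeReduction v.O := fun hs =>
    h.2 hs.toHasMultiplicativeReduction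
  rw [locPol, localPolynomial, if_neg h.1, if_neg hs, if_neg h.2, map_one]

/-- one ramified place, up to places of additive reduction -/
theorem one_place {l : ℕ} (hl : l.Prime) (E : WeierstrassCurve K) (S : Finset (Place F K))
    (v : Place F K) (hS : ∀ u ∈ S, u ≠ v → ¬ SemiAt E u) (hd : ¬ l ∣ v.deg)
    (hdisc : ¬ (l : ℤ) ∣ lpDisc E v) : MultLe l 1 (∏ u ∈ S, locPol E u) := by
  classical
  haveI := Fact.mk hl
  by_cases hv : v ∈ S
  · rw [← Finset.mul_prod_erase S _ hv, Finset.prod_eq_one, mul_one]
    · exact multLe_of_separable _ (locPol_separable hl E v hd hdisc)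
    · intro u hu
      exact locPol_not_semi E u (hS u (Finset.mem_of_mem_erase hu) (Finset.ne_of_mem_erase hu))
  · rw [Finset.prod_eq_one]
    · intro f hf hdvd
      rw [redl, Polynomial.map_one] at hdvd
      exact hf.not_isUnit (isUnit_of_dvd_unit ((dvd_pow_self f (by norm_num)).trans hdvd)
        isUnit_one)
    · intro u hu
      exact locPol_not_semi E u (hS u hu fun h => hv (h ▸ hu))

end FFBSD
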