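import Pool.Agent.LibST64.B4
import Pool.Agent.LibST64.C1

/-!
# Elliptic curves twisted by characters of `l`-power order (MP_93fb11_ag)
-/

set_option linter.style.haveILetI false
set_option linter.unusedSectionVars false

open Polynomial WeierstrassCurve IsLocalRing
open scoped PowerSeries.WithPiTopology

namespace FFBSD

variable {F M F' L : Type} [Field F] [Field M] [Field F'] [Field L] [Finite F] [Finite F']
  [Algebra F M] [Algebra F F'] [Algebra M L] [Algebra F' L] [Algebra F L]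
  [IsScalarTower F M L] [IsScalarTower F F' L]

theorem main_A {l b : ℕ} (hl : l.Prime) (h6 : (l ^ b).Coprime 6) (hlF : ¬ l ∣ Nat.card F)
    (hM : FunField F M) (hk : ∀ x : M, IsAlgebraic F x → x ∈ Set.range (algebraMap F M))
    (hgen : IntermediateField.adjoin M (Set.range (algebraMap F' L)) = ⊤)
    (hm : Module.finrank F F' = l ^ b) (E : WeierstrassCurve M) (hE : E.Δ ≠ 0) (P₀ : ℤ[X])
    (hP₀ : IsLFunction F E (P₀ : PowerSeries ℤ)) (S : Finset (Place F M)) (c : Place F' L → ℂ)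
    (hcS : ∀ w, c w = 0 ↔ ∃ v ∈ S, LiesAbove w v)
    (hc : ∀ w, c w ≠ 0 → ∃ i : ℕ, c w ^ l ^ i = 1) (P : ℂ[X])
    (hP : IsTwL (E.map (algebraMap M L)) c (P : PowerSeries ℂ))
    (hdeg : P.natDegree ≤ (redl l (P₀ * ∏ v ∈ S, locPol E v)).natDegree) :
    P.natDegree = (redl l (P₀ * ∏ v ∈ S, locPol E v)).natDegree ∧
    (∀ m : ℕ, MultLe l m (P₀ * ∏ v ∈ S, locPol E v) → ∀ x : ℂ, P.rootMultiplicity x ≤ m) ∧
    (MultLe l 1 (∏ v ∈ S, locPol E v) →
      P.natDegree ≤ {x : ℂ | P.rootMultiplicity x = 1}.ncard + 2 * P₀.natDegree) := by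
  obtain ⟨hfin, P', hP', h1, h2⟩ := tower_red hl h6 hlF hM hk hgen hm E hE P₀ hP₀ S c hcS
  have h3 : redl l (P' * ramPol (E.map (algebraMap M L)) c) =
      redl l (P₀ * ∏ v ∈ S, locPol E v) := by rw [redl_mul, redl_mul, h1, h2]
  obtain ⟨k1, k2, k3⟩ := twL_mult hl (E.map (algebraMap M L)) ⟨hfin, hc⟩ P hP P' hP'
    (by rw [h3]; exact hdeg)
  refine ⟨by rw [k1, h3], fun m hm' => k2 m ?_, fun hm' => ?_⟩
  · unfold MultLe at hm' ⊢
    rw [h3]
    exact hm'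
  · have k4 := k3 (by
      unfold MultLe at hm' ⊢
      rw [h2]
      exact hm')
    rw [h1] at k4
    have h7 : (redl l P₀).natDegree ≤ P₀.natDegree := natDegree_map_le
    omega

section seed

theorem ratFunc_const {F : Type} [Field F] (x : RatFunc F) (hx : IsAlgebraic F x) :
    x ∈ Set.range (algebraMap F (RatFunc F)) := by
  by_contra h
  refine RatFunc.transcendental_of_ne_C x ?_ hx
  rintro ⟨c, rfl⟩
  exact h ⟨c, rfl⟩

variable {F F' L : Type} [Field F] [Field F'] [Field L] [Finite F] [Finite F']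
  [Algebra F F'] [Algebra (RatFunc F) L] [Algebra F' L] [Algebra F L]
  [IsScalarTower F (RatFunc F) L] [IsScalarTower F F' L]

theorem main_C {l b : ℕ} (hl : l.Prime) (h6 : (l ^ b).Coprime 6) (hlF : ¬ l ∣ Nat.card F)
    (h2 : (2 : F) ≠ 0) (a₂ a₄ : F) (hab : a₂ ^ 2 ≠ 3 * a₄)
    (hgen : IntermediateField.adjoin (RatFunc F) (Set.range (algebraMap F' L)) = ⊤)
    (hm : Module.finrank F F' = l ^ b) (S : Finset (Place F (RatFunc F)))
    (v : Place F (RatFunc F)) (hS : ∀ u ∈ S, u ≠ v → (RatFunc.X : RatFunc F) ∉ u.O)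
    (hd : ¬ l ∣ v.deg) (hdisc : ¬ (l : ℤ) ∣ lpDisc (seedE a₂ a₄) v) (c : Place F' L → ℂ)
    (hcS : ∀ w, c w = 0 ↔ ∃ v ∈ S, LiesAbove w v)
    (hc : ∀ w, c w ≠ 0 → ∃ i : ℕ, c w ^ l ^ i = 1) (P : ℂ[X])
    (hP : IsTwL ((seedE a₂ a₄).map (algebraMap (RatFunc F) L)) c (P : PowerSeries ℂ))
    (hdeg : P.natDegree ≤ (redl l (∏ v ∈ S, locPol (seedE a₂ a₄) v)).natDegree) :
    P.natDegree = (redl l (∏ v ∈ S, locPol (seedE a₂ a₄) v)).natDegree ∧
    ∀ x : ℂ, P.rootMultiplicity x ≤ 1 := by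
  have hK₀ : FunField F (RatFunc F) :=
    ⟨Algebra.id _, inferInstance, inferInstance, inferInstance⟩
  have h1 := main_A hl h6 hlF hK₀ ratFunc_const hgen hm (seedE a₂ a₄) (seedE_Δ a₂ a₄ h2 hab) 1
    (by rw [Polynomial.coe_one]; exact seed_L_one a₂ a₄ h2 hab) S c hcS hc P hP
    (by rw [one_mul]; exact hdeg)
  rw [one_mul] at h1
  exact ⟨h1.1, h1.2.1 1 (one_place hl (seedE a₂ a₄) S v
    (fun u hu hne => seed_inf a₂ a₄ u h2 hab (hS u hu hne)) hd hdisc)⟩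

end seed

end FFBSD
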